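import Mathlib

/-! Rational interpolation (Cauchy interpolation) over a field, with coprime numerator and
denominator, in the presence of a cyclic symmetry of the data. -/

namespace Pool.Agent.Helper68

open Polynomial

variable {K : Type*} [Field K]

/-- `f / g` interpolates the values `v a` at the points `α a`, `a < 2 l + 1`, in the weak sense
`f (α a) = v a * g (α a)`, with both degrees at most `l`. -/
structure Interp (l : ℕ) (α v : ℕ → K) (f g : K[X]) : Prop where
  df : f.natDegree ≤ l
  dg : g.natDegree ≤ l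
  ev : ∀ a < 2 * l + 1, f.eval (α a) = v a * g.eval (α a)

theorem natDegree_le_of_mem_degreeLT {l : ℕ} {f : K[X]} (h : f ∈ degreeLT K (l + 1)) :
    f.natDegree ≤ l := by
  have := mem_degreeLT.1 h
  by_cases h0 : f = 0
  · simp [h0]
  · exact Nat.lt_succ_iff.1 ((natDegree_lt_iff_degree_lt h0).2 this)

theorem exists_interp (l : ℕ) (α v : ℕ → K) :
    ∃ f g : K[X], Interp l α v f g ∧ (f ≠ 0 ∨ g ≠ 0) := by
  classical
  let V := (degreeLT K (l + 1)) × (degreeLT K (l + 1))
  let φ : V →ₗ[K] (Fin (2 * l + 1) → K) :=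
    LinearMap.pi fun a =>
      ((leval (α a)).comp ((degreeLT K (l + 1)).subtype.comp (LinearMap.fst K _ _))) -
        (v a) • ((leval (α a)).comp ((degreeLT K (l + 1)).subtype.comp (LinearMap.snd K _ _)))
  have : FiniteDimensional K (degreeLT K (l + 1)) :=
    (degreeLTEquiv K (l + 1)).symm.finiteDimensional
  have hfr : Module.finrank K (degreeLT K (l + 1)) = l + 1 := by
    rw [(degreeLTEquiv K (l + 1)).finrank_eq]; simp
  have hker : LinearMap.ker φ ≠ ⊥ := by
    apply LinearMap.ker_ne_bot_of_finrank_lt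
    have : Module.finrank K V = (l + 1) + (l + 1) := by
      rw [Module.finrank_prod, hfr]
    rw [this]; simp; omega
  obtain ⟨⟨f, g⟩, hfg, hne⟩ := (Submodule.ne_bot_iff _).1 hker
  refine ⟨f, g, ⟨?_, ?_, ?_⟩, ?_⟩
  · exact natDegree_le_of_mem_degreeLT f.2
  · exact natDegree_le_of_mem_degreeLT g.2
  · intro a ha
    have := congrFun (LinearMap.mem_ker.1 hfg) ⟨a, ha⟩
    simp [φ, leval] at this
    exact sub_eq_zero.1 this
  · by_contra hcon
    push Not at hcon
    apply hne
    ext1
    · exact Subtype.ext hcon.1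
    · exact Subtype.ext hcon.2

theorem Interp.cross {l : ℕ} {α v : ℕ → K}
    (hα : ∀ a < 2 * l + 1, ∀ b < 2 * l + 1, α a = α b → a = b)
    {f g f' g' : K[X]} (h : Interp l α v f g) (h' : Interp l α v f' g') :
    f * g' = f' * g := by
  rw [← sub_eq_zero]
  apply eq_zero_of_natDegree_lt_card_of_eval_eq_zero (ι := Fin (2 * l + 1)) _ (f := fun a => α a)
  · intro a b hab
    exact Fin.ext (hα a a.2 b b.2 hab)
  · intro a
    simp only [eval_sub, eval_mul, h.ev a a.2, h'.ev a a.2]
    ring
  · rw [Fintype.card_fin]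
    have h1 : (f * g').natDegree ≤ l + l := natDegree_mul_le_of_le h.df h'.dg
    have h2 : (f' * g).natDegree ≤ l + l := natDegree_mul_le_of_le h'.df h.dg
    have := natDegree_sub_le_of_le h1 h2
    omega

theorem Interp.right_ne_zero {l : ℕ} {α v : ℕ → K}
    (hα : ∀ a < 2 * l + 1, ∀ b < 2 * l + 1, α a = α b → a = b)
    {f g : K[X]} (h : Interp l α v f g) (hne : f ≠ 0 ∨ g ≠ 0) : g ≠ 0 := by
  rintro rfl
  rcases hne with hf | hg
  · apply hf
    apply eq_zero_of_natDegree_lt_card_of_eval_eq_zero (ι := Fin (2 * l + 1)) _ (f := fun a => α a)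
    · intro a b hab
      exact Fin.ext (hα a a.2 b b.2 hab)
    · intro a
      simp [h.ev a a.2]
    · rw [Fintype.card_fin]
      have := h.df
      omega
  · exact hg rfl

theorem coprime_unique {f g f' g' : K[X]} (hc : IsCoprime f g) (hc' : IsCoprime f' g')
    (hg : g ≠ 0) (h : f * g' = f' * g) :
    ∃ c : K, c ≠ 0 ∧ f' = C c * f ∧ g' = C c * g := by
  have h1 : g ∣ g' := hc.symm.dvd_of_dvd_mul_left ⟨f', by rw [h]; ring⟩
  have h2 : g' ∣ g := hc'.symm.dvd_of_dvd_mul_left ⟨f, by rw [← h]; ring⟩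
  obtain ⟨u, hu⟩ := associated_of_dvd_dvd h1 h2
  obtain ⟨c, hc0, hcu⟩ := Polynomial.isUnit_iff.1 u.isUnit
  have hcne : c ≠ 0 := hc0.ne_zero
  have hg' : g' = C c * g := by rw [← hu, ← hcu]; ring
  refine ⟨c, hcne, ?_, hg'⟩
  have : (f' - C c * f) * g = 0 := by
    rw [sub_mul, ← h, hg']; ring
  rcases mul_eq_zero.1 this with h3 | h3
  · exact sub_eq_zero.1 h3
  · exact absurd h3 hg

/-- Uniqueness up to a scalar of the coprime interpolant. -/
theorem Interp.unique {l : ℕ} {α v : ℕ → K}
    (hα : ∀ a < 2 * l + 1, ∀ b < 2 * l + 1, α a = α b → a = b)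
    {f g f' g' : K[X]} (h : Interp l α v f g) (h' : Interp l α v f' g')
    (hc : IsCoprime f g) (hc' : IsCoprime f' g') :
    ∃ c : K, c ≠ 0 ∧ f' = C c * f ∧ g' = C c * g := by
  refine coprime_unique hc hc' ?_ (h.cross hα h')
  apply h.right_ne_zero hα
  by_contra hcon
  push Not at hcon
  rw [hcon.1, hcon.2] at hc
  simp [isCoprime_zero_left] at hc

theorem eval_map_equiv (s : K ≃+* K) (f : K[X]) (a : K) :
    (f.map (s : K →+* K)).eval (s a) = s (f.eval a) := by
  have := Polynomial.hom_eval₂ f (RingHom.id K) (s : K →+* K) a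
  rw [eval_map]
  simp only [RingHom.comp_id] at this
  rw [eval₂_id] at this
  exact this.symm

/-- Existence of a coprime interpolant when the data have a cyclic symmetry. -/
theorem exists_coprime_interp (l : ℕ) (α v : ℕ → K) (s : K ≃+* K)
    (hα : ∀ a < 2 * l + 1, ∀ b < 2 * l + 1, α a = α b → a = b)
    (hαp : ∀ a, α (a + (2 * l + 1)) = α a) (hvp : ∀ a, v (a + (2 * l + 1)) = v a)
    (hv0 : ∀ a, v a ≠ 0) (hsα : ∀ a, s (α a) = α (a + 1))
    (hsv : ∀ a, s (v a) = v (a + 1) / v 1) :
    ∃ f g : K[X], Interp l α v f g ∧ IsCoprime f g := by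
  classical
  obtain ⟨f, g, hI, hne⟩ := exists_interp l α v
  have hg : g ≠ 0 := hI.right_ne_zero hα hne
  set d := GCDMonoid.gcd f g with hd
  have hd0 : d ≠ 0 := gcd_ne_zero_of_right hg
  set f0 := f / d with hf0
  set g0 := g / d with hg0
  have hcop : IsCoprime f0 g0 := isCoprime_div_gcd_div_gcd hg
  have hf : f = d * f0 := (EuclideanDomain.mul_div_cancel' hd0 (gcd_dvd_left _ _)).symm
  have hg' : g = d * g0 := (EuclideanDomain.mul_div_cancel' hd0 (gcd_dvd_right _ _)).symm
  have hg00 : g0 ≠ 0 := by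
    intro h; apply hg; rw [hg', h, mul_zero]
  have hd1 : f0.natDegree ≤ l := by
    by_cases h0 : f0 = 0
    · rw [h0]; simp
    · have := natDegree_mul hd0 h0
      rw [← hf] at this
      have := hI.df
      omega
  have hd2 : g0.natDegree ≤ l := by
    have := natDegree_mul hd0 hg00
    rw [← hg'] at this
    have := hI.dg
    omega
  -- the transformed interpolant
  let f1 := f.map (s : K →+* K)
  let g1 := C (v 1)⁻¹ * g.map (s : K →+* K)
  have hv1 : v 1 ≠ 0 := hv0 1
  have key : ∀ a, (f1.eval (α (a + 1)) - v (a + 1) * g1.eval (α (a + 1))) =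
      s (f.eval (α a) - v a * g.eval (α a)) := by
    intro a
    simp only [f1, g1, eval_mul, eval_C, map_sub, map_mul, hsv, ← hsα, eval_map_equiv]
    field_simp
  have hI1 : Interp l α v f1 g1 := by
    refine ⟨?_, ?_, ?_⟩
    · simpa [f1] using hI.df
    · refine (natDegree_C_mul_le _ _).trans ?_
      simpa using hI.dg
    · intro a ha
      rcases Nat.eq_zero_or_pos a with h0 | h0
      · subst h0
        have := key (2 * l)
        rw [hI.ev (2 * l) (by omega), sub_self, map_zero] at this
        have e1 : α (2 * l + 1) = α 0 := by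
          have := hαp 0; rwa [zero_add] at this
        have e2 : v (2 * l + 1) = v 0 := by
          have := hvp 0; rwa [zero_add] at this
        rw [e1, e2] at this
        exact sub_eq_zero.1 this
      · obtain ⟨b, rfl⟩ : ∃ b, a = b + 1 := ⟨a - 1, by omega⟩
        have := key b
        rw [hI.ev b (by omega), sub_self, map_zero] at this
        exact sub_eq_zero.1 this
  have hcross := hI.cross hα hI1
  have hsd0 : d.map (s : K →+* K) ≠ 0 := by
    rw [Polynomial.map_ne_zero_iff s.injective]; exact hd0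
  have hcross0 : f0 * (C (v 1)⁻¹ * g0.map (s : K →+* K)) = f0.map (s : K →+* K) * g0 := by
    have h1 : (d * d.map (s : K →+* K)) *
        (f0 * (C (v 1)⁻¹ * g0.map (s : K →+* K)) - f0.map (s : K →+* K) * g0) = 0 := by
      have e : f * g1 - f1 * g = 0 := sub_eq_zero.2 hcross
      simp only [f1, g1] at e
      rw [hf, hg', Polynomial.map_mul, Polynomial.map_mul] at e
      rw [← e]; ring
    rcases mul_eq_zero.1 h1 with h2 | h2
    · exact absurd h2 (mul_ne_zero hd0 hsd0)
    · exact sub_eq_zero.1 h2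
  have hcop1 : IsCoprime (f0.map (s : K →+* K)) (C (v 1)⁻¹ * g0.map (s : K →+* K)) := by
    have h1 : IsCoprime (f0.map (s : K →+* K)) (g0.map (s : K →+* K)) :=
      hcop.map (Polynomial.mapRingHom (s : K →+* K))
    have hu : IsUnit (C (v 1)⁻¹ : K[X]) := Polynomial.isUnit_C.2 (IsUnit.mk0 _ (inv_ne_zero hv1))
    exact (isCoprime_mul_unit_left_right hu _ _).2 h1
  obtain ⟨c, hc, hcf, hcg⟩ := coprime_unique hcop hcop1 hg00 hcross0
  have key0 : ∀ a, c * (f0.eval (α (a + 1)) - v (a + 1) * g0.eval (α (a + 1))) =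
      s (f0.eval (α a) - v a * g0.eval (α a)) := by
    intro a
    have e1 : (f0.map (s : K →+* K)).eval (α (a + 1)) = c * f0.eval (α (a + 1)) := by
      rw [hcf, eval_mul, eval_C]
    have e2 : (C (v 1)⁻¹ * g0.map (s : K →+* K)).eval (α (a + 1)) = c * g0.eval (α (a + 1)) := by
      rw [hcg, eval_mul, eval_C]
    rw [mul_sub, ← e1, mul_left_comm, ← e2]
    simp only [eval_mul, eval_C, map_sub, map_mul, hsv, ← hsα, eval_map_equiv]
    field_simp
  refine ⟨f0, g0, ⟨hd1, hd2, ?_⟩, hcop⟩
  by_contra hcon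
  push Not at hcon
  obtain ⟨a0, ha0, hbad⟩ := hcon
  have hbadall : ∀ j, f0.eval (α (a0 + j)) - v (a0 + j) * g0.eval (α (a0 + j)) ≠ 0 := by
    intro j
    induction j with
    | zero => simpa using sub_ne_zero.2 hbad
    | succ j ih =>
      intro h
      apply ih
      have := key0 (a0 + j)
      rw [add_assoc, h, mul_zero] at this
      exact s.injective (by rw [← this, map_zero])
  have hdall : ∀ b < 2 * l + 1, d.eval (α b) = 0 := by
    intro b hb
    have h1 := hI.ev b hb
    rw [hf, hg', eval_mul, eval_mul] at h1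
    have h2 : d.eval (α b) * (f0.eval (α b) - v b * g0.eval (α b)) = 0 := by
      rw [mul_sub, h1]; ring
    rcases mul_eq_zero.1 h2 with h3 | h3
    · exact h3
    · exfalso
      by_cases hb' : a0 ≤ b
      · have := hbadall (b - a0)
        rw [Nat.add_sub_cancel' hb'] at this
        exact this h3
      · have := hbadall (b + (2 * l + 1) - a0)
        rw [Nat.add_sub_cancel' (by omega), hαp, hvp] at this
        exact this h3
  apply hd0
  apply eq_zero_of_natDegree_lt_card_of_eval_eq_zero (ι := Fin (2 * l + 1)) _ (f := fun a => α a)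
  · intro a b hab
    exact Fin.ext (hα a a.2 b b.2 hab)
  · intro a
    exact hdall a a.2
  · rw [Fintype.card_fin]
    have h1 := natDegree_mul hd0 hg00
    rw [← hg'] at h1
    have := hI.dg
    omega

end Pool.Agent.Helper68
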