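import Mathlib

/-! A `2 × 2 × 2` tensor of rank two is recovered from its coordinates by a quadratic equation
(the discriminant is the hyperdeterminant). -/

namespace Pool.Agent.Helper68

/-- coordinates of a pure `2 × 2 × 2` tensor.  The index `(c, none)` is `(c, c, c)` and the index
`(c, some b)` is `(c, c, c)` with the `b`-th entry changed to `1 - c`. -/
def ten {R : Type*} [CommRing R] (A : Fin 3 → Fin 2 → R) : Fin 2 × Option (Fin 3) → R
  | (c, none) => A 0 c * A 1 c * A 2 c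
  | (c, some b) => A 0 (if b = 0 then 1 - c else c) * A 1 (if b = 1 then 1 - c else c) *
      A 2 (if b = 2 then 1 - c else c)

theorem sum_ten_mul {R : Type*} [CommRing R] (A B : Fin 3 → Fin 2 → R) :
    ∑ i, ten A i * ten B i = ∏ b, (A b 0 * B b 0 + A b 1 * B b 1) := by
  simp only [Fintype.sum_prod_type, Fin.sum_univ_two, Fintype.sum_option, Fin.sum_univ_three, ten,
    Fin.prod_univ_three]
  simp
  ring

/-- the minor of the `b`-th pair. -/
def minor {R : Type*} [CommRing R] (F G : Fin 3 → Fin 2 → R) (b : Fin 3) : R :=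
  F b 0 * G b 1 - F b 1 * G b 0

/-- the product of the two minors other than the `b`-th. -/
def cominor {R : Type*} [CommRing R] (F G : Fin 3 → Fin 2 → R) : Fin 3 → R
  | 0 => minor F G 1 * minor F G 2
  | 1 => minor F G 0 * minor F G 2
  | 2 => minor F G 0 * minor F G 1

theorem recover {L Ω : Type*} [Field L] [Field Ω] [Algebra L Ω]
    (S S' : IntermediateField L Ω) (hSS' : S ≤ S') (F G : Fin 3 → Fin 2 → Ω) (y : Ω) (hy : y ≠ 0)
    (hz : ∀ i, (ten F i - ten G i) / y ∈ S)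
    (hμ : F 0 0 * G 0 1 * cominor F G 0 / y ^ 2 ∈ S') :
    (F 0 0 * G 0 1 * cominor F G 0 / y ^ 2 + F 0 1 * G 0 0 * cominor F G 0 / y ^ 2 ∈ S) ∧
    (F 0 0 * G 0 1 * cominor F G 0 / y ^ 2 * (F 0 1 * G 0 0 * cominor F G 0 / y ^ 2) ∈ S) ∧
    ∀ b m n, F b m * G b n * cominor F G b / y ^ 2 ∈ S' := by
  set Z : Fin 2 × Option (Fin 3) → Ω := fun i => (ten F i - ten G i) / y with hZ
  have hZS : ∀ i j, Z i * Z j ∈ S := fun i j => mul_mem (hz i) (hz j)
  have e000 : F 0 0 * G 0 0 * cominor F G 0 / y ^ 2 =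
      -(Z (0, none) * Z (1, some 0) - Z (0, some 2) * Z (0, some 1)) := by
    simp [hZ, ten, cominor, minor]; field_simp; ring
  have e011 : F 0 1 * G 0 1 * cominor F G 0 / y ^ 2 =
      -(Z (0, some 0) * Z (1, none) - Z (1, some 1) * Z (1, some 2)) := by
    simp [hZ, ten, cominor, minor]; field_simp; ring
  have e0s : F 0 0 * G 0 1 * cominor F G 0 / y ^ 2 + F 0 1 * G 0 0 * cominor F G 0 / y ^ 2 =
      -(Z (0, none) * Z (1, none) + Z (0, some 0) * Z (1, some 0)
        - Z (0, some 2) * Z (1, some 2) - Z (1, some 1) * Z (0, some 1)) := by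
    simp [hZ, ten, cominor, minor]; field_simp; ring
  have e100 : F 1 0 * G 1 0 * cominor F G 1 / y ^ 2 =
      -(Z (0, none) * Z (1, some 1) - Z (0, some 2) * Z (0, some 0)) := by
    simp [hZ, ten, cominor, minor]; field_simp; ring
  have e111 : F 1 1 * G 1 1 * cominor F G 1 / y ^ 2 =
      -(Z (0, some 1) * Z (1, none) - Z (1, some 0) * Z (1, some 2)) := by
    simp [hZ, ten, cominor, minor]; field_simp; ring
  have e1s : F 1 0 * G 1 1 * cominor F G 1 / y ^ 2 + F 1 1 * G 1 0 * cominor F G 1 / y ^ 2 =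
      -(Z (0, none) * Z (1, none) + Z (0, some 1) * Z (1, some 1)
        - Z (0, some 2) * Z (1, some 2) - Z (1, some 0) * Z (0, some 0)) := by
    simp [hZ, ten, cominor, minor]; field_simp; ring
  have e1d : F 1 0 * G 1 1 * cominor F G 1 / y ^ 2 = F 0 0 * G 0 1 * cominor F G 0 / y ^ 2 +
      (Z (1, some 0) * Z (0, some 0) - Z (0, some 1) * Z (1, some 1)) := by
    simp [hZ, ten, cominor, minor]; field_simp; ring
  have e200 : F 2 0 * G 2 0 * cominor F G 2 / y ^ 2 =
      -(Z (0, none) * Z (1, some 2) - Z (0, some 1) * Z (0, some 0)) := by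
    simp [hZ, ten, cominor, minor]; field_simp; ring
  have e211 : F 2 1 * G 2 1 * cominor F G 2 / y ^ 2 =
      -(Z (0, some 2) * Z (1, none) - Z (1, some 0) * Z (1, some 1)) := by
    simp [hZ, ten, cominor, minor]; field_simp; ring
  have e2s : F 2 0 * G 2 1 * cominor F G 2 / y ^ 2 + F 2 1 * G 2 0 * cominor F G 2 / y ^ 2 =
      -(Z (0, none) * Z (1, none) + Z (0, some 2) * Z (1, some 2)
        - Z (0, some 1) * Z (1, some 1) - Z (1, some 0) * Z (0, some 0)) := by
    simp [hZ, ten, cominor, minor]; field_simp; ring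
  have e2d : F 2 0 * G 2 1 * cominor F G 2 / y ^ 2 = F 1 0 * G 1 1 * cominor F G 1 / y ^ 2 +
      (Z (1, some 1) * Z (0, some 1) - Z (0, some 2) * Z (1, some 2)) := by
    simp [hZ, ten, cominor, minor]; field_simp; ring
  have m000 : F 0 0 * G 0 0 * cominor F G 0 / y ^ 2 ∈ S := by
    rw [e000]; exact neg_mem (sub_mem (hZS _ _) (hZS _ _))
  have m011 : F 0 1 * G 0 1 * cominor F G 0 / y ^ 2 ∈ S := by
    rw [e011]; exact neg_mem (sub_mem (hZS _ _) (hZS _ _))
  have m0s : F 0 0 * G 0 1 * cominor F G 0 / y ^ 2 + F 0 1 * G 0 0 * cominor F G 0 / y ^ 2 ∈ S := by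
    rw [e0s]
    exact neg_mem (sub_mem (sub_mem (add_mem (hZS _ _) (hZS _ _)) (hZS _ _)) (hZS _ _))
  have m100 : F 1 0 * G 1 0 * cominor F G 1 / y ^ 2 ∈ S := by
    rw [e100]; exact neg_mem (sub_mem (hZS _ _) (hZS _ _))
  have m111 : F 1 1 * G 1 1 * cominor F G 1 / y ^ 2 ∈ S := by
    rw [e111]; exact neg_mem (sub_mem (hZS _ _) (hZS _ _))
  have m1s : F 1 0 * G 1 1 * cominor F G 1 / y ^ 2 + F 1 1 * G 1 0 * cominor F G 1 / y ^ 2 ∈ S := by
    rw [e1s]
    exact neg_mem (sub_mem (sub_mem (add_mem (hZS _ _) (hZS _ _)) (hZS _ _)) (hZS _ _))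
  have m200 : F 2 0 * G 2 0 * cominor F G 2 / y ^ 2 ∈ S := by
    rw [e200]; exact neg_mem (sub_mem (hZS _ _) (hZS _ _))
  have m211 : F 2 1 * G 2 1 * cominor F G 2 / y ^ 2 ∈ S := by
    rw [e211]; exact neg_mem (sub_mem (hZS _ _) (hZS _ _))
  have m2s : F 2 0 * G 2 1 * cominor F G 2 / y ^ 2 + F 2 1 * G 2 0 * cominor F G 2 / y ^ 2 ∈ S := by
    rw [e2s]
    exact neg_mem (sub_mem (sub_mem (add_mem (hZS _ _) (hZS _ _)) (hZS _ _)) (hZS _ _))
  have n101 : F 1 0 * G 1 1 * cominor F G 1 / y ^ 2 ∈ S' := by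
    rw [e1d]; exact add_mem hμ (hSS' (sub_mem (hZS _ _) (hZS _ _)))
  have n201 : F 2 0 * G 2 1 * cominor F G 2 / y ^ 2 ∈ S' := by
    rw [e2d]; exact add_mem n101 (hSS' (sub_mem (hZS _ _) (hZS _ _)))
  have n010 : F 0 1 * G 0 0 * cominor F G 0 / y ^ 2 ∈ S' := by
    have := sub_mem (hSS' m0s) hμ
    rwa [add_sub_cancel_left] at this
  have n110 : F 1 1 * G 1 0 * cominor F G 1 / y ^ 2 ∈ S' := by
    have := sub_mem (hSS' m1s) n101
    rwa [add_sub_cancel_left] at this
  have n210 : F 2 1 * G 2 0 * cominor F G 2 / y ^ 2 ∈ S' := by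
    have := sub_mem (hSS' m2s) n201
    rwa [add_sub_cancel_left] at this
  refine ⟨m0s, ?_, ?_⟩
  · have := mul_mem m000 m011
    convert this using 1
    ring
  · intro b m n
    fin_cases b <;> fin_cases m <;> fin_cases n
    · exact hSS' m000
    · exact hμ
    · exact n010
    · exact hSS' m011
    · exact hSS' m100
    · exact n101
    · exact n110
    · exact hSS' m111
    · exact hSS' m200
    · exact n201
    · exact n210
    · exact hSS' m211

end Pool.Agent.Helper68
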