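import Mathlib

/-! Generalities on finitely generated field extensions. -/

namespace Pool.Agent.Helper68

open IntermediateField Cardinal
open scoped IntermediateField.algebraAdjoinAdjoin

universe u v w

/-- A finite family over whose generated field everything is algebraic, with at most as many
members as the transcendence degree, is algebraically independent. -/
theorem algInd_of_algebraic {L : Type u} {Ω : Type v} [Field L] [Field Ω] [Algebra L Ω]
    {κ : Type w} [Finite κ] (t : κ → Ω)
    (h : Algebra.IsAlgebraic (IntermediateField.adjoin L (Set.range t)) Ω)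
    (hc : (Nat.card κ : Cardinal) ≤ Algebra.trdeg L Ω) : AlgebraicIndependent L t := by
  have : Algebra.IsAlgebraic (Algebra.adjoin L (Set.range t)) Ω := by
    rw [IsFractionRing.comap_isAlgebraic_iff (K := IntermediateField.adjoin L (Set.range t))]
    exact h
  refine (Algebra.IsAlgebraic.isTranscendenceBasis_of_lift_le_trdeg_of_finite L t ?_).1
  have h1 : lift.{v} #κ = lift.{w} ((Nat.card κ : ℕ) : Cardinal.{v}) := by
    rw [← Nat.cast_card (α := κ)]; simp
  rw [h1]
  exact Cardinal.lift_le.2 hc

/-- Two algebraically independent generating families with the same index set are conjugate. -/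
theorem exists_algEquiv {L : Type u} {Ω : Type v} [Field L] [Field Ω] [Algebra L Ω]
    {κ : Type w} (t t' : κ → Ω)
    (ht : AlgebraicIndependent L t) (ht' : AlgebraicIndependent L t')
    (hg : IntermediateField.adjoin L (Set.range t) = ⊤)
    (hg' : IntermediateField.adjoin L (Set.range t') = ⊤) :
    ∃ θ : Ω ≃ₐ[L] Ω, ∀ i, θ (t i) = t' i := by
  let e1 : FractionRing (MvPolynomial κ L) ≃ₐ[L] Ω :=
    ht.aevalEquivField.trans ((IntermediateField.equivOfEq hg).trans IntermediateField.topEquiv)
  let e2 : FractionRing (MvPolynomial κ L) ≃ₐ[L] Ω :=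
    ht'.aevalEquivField.trans ((IntermediateField.equivOfEq hg').trans IntermediateField.topEquiv)
  have h1 : ∀ i, e1 (algebraMap (MvPolynomial κ L) _ (MvPolynomial.X i)) = t i := by
    intro i
    change ((ht.aevalEquivField (algebraMap (MvPolynomial κ L) _ (MvPolynomial.X i)) : _) : Ω) = t i
    rw [AlgebraicIndependent.aevalEquivField_algebraMap_apply_coe, MvPolynomial.aeval_X]
  have h2 : ∀ i, e2 (algebraMap (MvPolynomial κ L) _ (MvPolynomial.X i)) = t' i := by
    intro i
    change ((ht'.aevalEquivField (algebraMap (MvPolynomial κ L) _ (MvPolynomial.X i)) : _) : Ω) = t' i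
    rw [AlgebraicIndependent.aevalEquivField_algebraMap_apply_coe, MvPolynomial.aeval_X]
  refine ⟨e1.symm.trans e2, fun i => ?_⟩
  rw [AlgEquiv.trans_apply, ← h1 i, AlgEquiv.symm_apply_apply, h2]

/-- If a quadratic extension `Ω = E(μ)` has an automorphism over `E` moving `μ` to the other
root, the fixed elements lie in `E`. -/
theorem mem_of_fixed_quadratic {L : Type u} {Ω : Type v} [Field L] [Field Ω] [Algebra L Ω]
    (E : IntermediateField L Ω) (μ μ' : Ω) (hs : μ + μ' ∈ E) (hp : μ * μ' ∈ E) (hne : μ ≠ μ')
    (hgen : IntermediateField.adjoin E {μ} = ⊤) (θ : Ω ≃ₐ[L] Ω) (hθ : ∀ e ∈ E, θ e = e)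
    (hμ : θ μ = μ') (y : Ω) (hy : θ y = y) : y ∈ E := by
  -- the quadratic polynomial of `μ`
  let Q : Polynomial E := Polynomial.X ^ 2 - Polynomial.C ⟨μ + μ', hs⟩ * Polynomial.X +
    Polynomial.C ⟨μ * μ', hp⟩
  have hQm : Q.Monic := by
    simp only [Q]
    monicity!
  have hQd : Q.natDegree = 2 := by
    simp only [Q]
    compute_degree!
  have hQμ : Polynomial.aeval μ Q = 0 := by
    simp only [Q, map_add, map_sub, map_mul, map_pow, Polynomial.aeval_X, Polynomial.aeval_C,
      IntermediateField.algebraMap_apply]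
    ring
  have hint : IsIntegral E μ := ⟨Q, hQm, by rw [← Polynomial.aeval_def]; exact hQμ⟩
  have hyA : y ∈ Algebra.adjoin E {μ} := by
    have h1 : y ∈ IntermediateField.adjoin E {μ} := by rw [hgen]; trivial
    rw [← IntermediateField.mem_toSubalgebra,
      IntermediateField.adjoin_simple_toSubalgebra_of_isAlgebraic hint.isAlgebraic] at h1
    exact h1
  rw [Algebra.adjoin_singleton_eq_range_aeval] at hyA
  obtain ⟨P, hP⟩ := hyA
  have hP' : Polynomial.aeval μ (P %ₘ Q) = y := by
    rw [Polynomial.aeval_modByMonic_eq_self_of_root hQμ]; exact hP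
  set R := P %ₘ Q with hR
  have hRd : R.natDegree < 2 := by
    rw [← hQd]
    exact Polynomial.natDegree_modByMonic_lt _ hQm (by
      intro h
      rw [h] at hQd
      simp at hQd)
  have hRe : R = Polynomial.C (R.coeff 1) * Polynomial.X + Polynomial.C (R.coeff 0) :=
    Polynomial.eq_X_add_C_of_natDegree_le_one (by omega)
  have hy2 : y = (R.coeff 1 : Ω) * μ + (R.coeff 0 : Ω) := by
    rw [← hP', hRe]
    simp
  have hy3 : y = (R.coeff 1 : Ω) * μ' + (R.coeff 0 : Ω) := by
    rw [← hy]
    nth_rewrite 1 [hy2]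
    rw [map_add, map_mul, hμ, hθ _ (R.coeff 1).2, hθ _ (R.coeff 0).2]
  have h4 : (R.coeff 1 : Ω) * (μ - μ') = 0 := by
    have := hy2.symm.trans hy3
    linear_combination this
  rcases mul_eq_zero.1 h4 with h5 | h5
  · rw [hy2, h5, zero_mul, zero_add]
    exact (R.coeff 0).2
  · exact absurd (sub_eq_zero.1 h5) hne

end Pool.Agent.Helper68
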