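import Mathlib

/-! Generic points of a two-dimensional torus impose independent conditions on seven monomials. -/

namespace Pool.Agent.Helper68

open MvPolynomial

/-- exponents of the seven monomials `xy, x²y, xy², 1, x²y², x, y`. -/
def expo : Fin 7 → Fin 2 → ℕ :=
  ![![1, 1], ![2, 1], ![1, 2], ![0, 0], ![2, 2], ![1, 0], ![0, 1]]

theorem expo_injective : Function.Injective expo := by decide

/-- the row of the seven monomials. -/
def mrow {R : Type*} [CommRing R] (x y : R) : Fin 7 → R :=
  fun i => x ^ (expo i 0) * y ^ (expo i 1)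

theorem mrow_combination_ne_zero {R A : Type*} [CommRing R] [CommRing A] [Algebra R A]
    (x : Fin 2 → A) (hx : AlgebraicIndependent R x) (c : Fin 7 → R) (hc : c ≠ 0) :
    ∑ i, algebraMap R A (c i) * mrow (x 0) (x 1) i ≠ 0 := by
  classical
  let P : MvPolynomial (Fin 2) R :=
    ∑ i, monomial (Finsupp.equivFunOnFinite.symm (expo i)) (c i)
  have hP : aeval x P = ∑ i, algebraMap R A (c i) * mrow (x 0) (x 1) i := by
    simp only [P, map_sum, aeval_monomial, mrow]
    refine Finset.sum_congr rfl fun i _ => ?_
    congr 1
    rw [Finsupp.prod_fintype _ _ (by simp)]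
    simp [Fin.prod_univ_two]
  rw [← hP]
  intro h0
  have hP0 : P = 0 := hx.eq_zero_of_aeval_eq_zero P h0
  apply hc
  funext i
  have h1 : coeff (Finsupp.equivFunOnFinite.symm (expo i)) P = c i := by
    simp only [P, coeff_sum, coeff_monomial]
    rw [Finset.sum_eq_single i]
    · simp
    · intro j _ hj
      rw [if_neg]
      intro h
      exact hj (expo_injective (Finsupp.equivFunOnFinite.symm.injective h))
    · simp
  rw [← h1, hP0]; simp

theorem linearIndependent_mrow {L Ω : Type*} [Field L] [Field Ω] [Algebra L Ω] (m : ℕ)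
    (X Y : ℕ → Ω) (hX : X 0 = 1) (hY : Y 0 = 1) (hm : m ≤ 6)
    (H : AlgebraicIndependent L
      (fun i : Fin m × Fin 2 => if i.2 = 0 then X (i.1 + 1) else Y (i.1 + 1))) :
    ∀ j ≤ m + 1, LinearIndependent Ω (fun a : Fin j => mrow (X a) (Y a)) := by
  classical
  intro j
  induction j with
  | zero => intro _; exact linearIndependent_empty_type
  | succ j ih =>
    intro hj
    rw [linearIndependent_finSucc']
    refine ⟨ih (by omega), ?_⟩
    rcases Nat.eq_zero_or_pos j with h0 | hpos
    · subst h0
      intro hmem
      have hmem' : mrow (X (0 : ℕ)) (Y (0 : ℕ)) ∈ Submodule.span Ω (∅ : Set (Fin 7 → Ω)) := by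
        refine Submodule.span_mono ?_ hmem
        rintro _ ⟨i, _⟩
        exact Fin.elim0 i
      rw [Submodule.span_empty, Submodule.mem_bot] at hmem'
      have := congrFun hmem' 0
      simp [mrow, hX, hY] at this
    · obtain ⟨b, rfl⟩ : ∃ b, j = b + 1 := ⟨j - 1, by omega⟩
      have hbm : b < m := by omega
      set u : Fin m × Fin 2 → Ω :=
        (fun i : Fin m × Fin 2 => if i.2 = 0 then X (i.1 + 1) else Y (i.1 + 1)) with hu
      let s : Set (Fin m × Fin 2) := {i | (i.1 : ℕ) < b}
      let t : Set (Fin m × Fin 2) := {i | (i.1 : ℕ) = b}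
      have hst : Disjoint s t := by
        rw [Set.disjoint_left]
        intro i hi hi'
        simp only [s, t, Set.mem_ofPred_eq] at hi hi'
        omega
      have hind := H.adjoin_of_disjoint hst
      set R := Algebra.adjoin L (u '' s) with hR
      have hind2 : AlgebraicIndependent R
          (fun i : Fin 2 => if i = 0 then X (b + 1) else Y (b + 1)) := by
        have := hind.comp (fun i : Fin 2 => (⟨(⟨b, hbm⟩, i), rfl⟩ : t)) (by
          intro i i' hii
          simpa using hii)
        exact this
      have hXR : ∀ a ≤ b, X a ∈ R := by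
        intro a ha
        rcases Nat.eq_zero_or_pos a with h | h
        · subst h; rw [hX]; exact one_mem _
        · obtain ⟨a', rfl⟩ : ∃ a', a = a' + 1 := ⟨a - 1, by omega⟩
          apply Algebra.subset_adjoin
          exact ⟨(⟨a', by omega⟩, 0), by simp only [s, Set.mem_ofPred_eq]; omega, by simp [hu]⟩
      have hYR : ∀ a ≤ b, Y a ∈ R := by
        intro a ha
        rcases Nat.eq_zero_or_pos a with h | h
        · subst h; rw [hY]; exact one_mem _
        · obtain ⟨a', rfl⟩ : ∃ a', a = a' + 1 := ⟨a - 1, by omega⟩
          apply Algebra.subset_adjoin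
          exact ⟨(⟨a', by omega⟩, 1), by simp only [s, Set.mem_ofPred_eq]; omega, by simp [hu]⟩
      -- a nonzero vector over R killed by the rows 0, ..., b
      let f : (Fin 7 → R) →ₗ[R] (Fin (b + 1) → R) :=
        LinearMap.pi fun a => ∑ i, (mrow (⟨X a, hXR a (by omega)⟩ : R)
          (⟨Y a, hYR a (by omega)⟩ : R) i) • LinearMap.proj i
      have hninj : ¬ Function.Injective f := by
        intro hinj
        have := le_of_fin_injective R f hinj
        omega
      obtain ⟨c, hc0, hcne⟩ : ∃ c : Fin 7 → R, f c = 0 ∧ c ≠ 0 := by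
        by_contra hcon
        push Not at hcon
        apply hninj
        rw [← LinearMap.ker_eq_bot, LinearMap.ker_eq_bot']
        intro c hc
        exact hcon c hc
      let φ : (Fin 7 → Ω) →ₗ[Ω] Ω := ∑ i, ((c i : Ω)) • LinearMap.proj i
      have hφrow : ∀ a : Fin (b + 1), φ (mrow (X a) (Y a)) = 0 := by
        intro a
        have h1 := congrFun hc0 a
        simp only [f, LinearMap.pi_apply, LinearMap.coe_sum, Finset.sum_apply,
          LinearMap.smul_apply, LinearMap.proj_apply, Pi.zero_apply] at h1
        have h2 := congrArg (fun r : R => (r : Ω)) h1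
        simp only [φ, LinearMap.coe_sum, Finset.sum_apply, LinearMap.smul_apply,
          LinearMap.proj_apply, smul_eq_mul]
        simp only [smul_eq_mul, mrow] at h2
        rw [← ZeroMemClass.coe_zero R, ← h2]
        push_cast
        refine Finset.sum_congr rfl fun i _ => ?_
        simp only [mrow]; ring
      intro hmem
      have hle : Submodule.span Ω (Set.range (Fin.init fun a : Fin (b + 1 + 1) =>
          mrow (X a) (Y a))) ≤ LinearMap.ker φ := by
        rw [Submodule.span_le]
        rintro _ ⟨a, rfl⟩
        exact hφrow a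
      have h3 := LinearMap.mem_ker.1 (hle hmem)
      have h4 := mrow_combination_ne_zero
        (fun i : Fin 2 => if i = 0 then X (b + 1) else Y (b + 1)) hind2 c hcne
      apply h4
      rw [← h3]
      simp only [φ, LinearMap.coe_sum, Finset.sum_apply, LinearMap.smul_apply,
          LinearMap.proj_apply, smul_eq_mul]
      rfl

end Pool.Agent.Helper68
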