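import Pool.Agent.Helper68.Data
import Pool.Agent.Helper68.FieldGen
import Pool.Agent.Helper68.Rank

/-! Algebraic independence of the `u a b` and the inversion. -/

namespace Pool.Agent.Helper68

namespace CoreData

variable {l : ℕ} {L Ω : Type*} [Field L] [Field Ω] [Algebra L Ω] (d : CoreData l L Ω)

theorem u_cases (P : Ω → Prop) (h : ∀ a ≤ 2 * l, ∀ b < 2, P (d.u a b))
    (h2 : ∀ a ≤ 2 * l, P (d.u a 0) → P (d.u a 1) → P (d.u a 2)) : ∀ a b, P (d.u a b) := by
  have h3 : ∀ a ≤ 2 * l, ∀ b < 3, P (d.u a b) := by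
    intro a ha b hb
    rcases Nat.lt_or_ge b 2 with h1 | h1
    · exact h a ha b h1
    · obtain rfl : b = 2 := by omega
      exact h2 a ha (h a ha 0 (by norm_num)) (h a ha 1 (by norm_num))
  have h4 : ∀ a, ∀ b < 3, P (d.u a b) := by
    intro a b hb
    induction a using Nat.strong_induction_on with
    | _ a ih =>
      by_cases ha : a ≤ 2 * l
      · exact h3 a ha b hb
      · obtain ⟨c, rfl⟩ : ∃ c, a = c + (2 * l + 1) := ⟨a - (2 * l + 1), by omega⟩
        rw [u_add_q]
        exact ih c (by omega)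
  intro a b
  induction b using Nat.strong_induction_on with
  | _ b ih =>
    by_cases hb : b < 3
    · exact h4 a b hb
    · obtain ⟨c, rfl⟩ : ∃ c, b = c + 3 := ⟨b - 3, by omega⟩
      rw [u_add_three]
      exact ih c (by omega)

theorem isAlgebraic_of_eq_top {S : IntermediateField L Ω} (h : S = ⊤) :
    Algebra.IsAlgebraic S Ω := by
  constructor
  intro y
  have : y ∈ S := by rw [h]; trivial
  exact isAlgebraic_algebraMap (⟨y, this⟩ : S)

/-- the basic transcendence basis. -/
def w (i : Fin (2 * l) × Fin 2) : Ω := if i.2 = 0 then d.u (i.1 + 1) 0 else d.u (i.1 + 1) 1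

theorem adjoin_w : IntermediateField.adjoin L (Set.range d.w) = ⊤ := by
  apply d.eq_top_of_u_mem
  intro a ha b hb
  rcases Nat.eq_zero_or_pos a with h | h
  · subst h; rw [u_zero]; exact one_mem _
  · obtain ⟨c, rfl⟩ : ∃ c, a = c + 1 := ⟨a - 1, by omega⟩
    apply IntermediateField.subset_adjoin
    have : b = 0 ∨ b = 1 := by omega
    rcases this with rfl | rfl
    · exact ⟨(⟨c, by omega⟩, 0), by simp [w]⟩
    · exact ⟨(⟨c, by omega⟩, 1), by simp [w]⟩

theorem adjoin_w_inv : IntermediateField.adjoin L (Set.range fun i => (d.w i)⁻¹) = ⊤ := by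
  rw [eq_top_iff, ← d.adjoin_w, IntermediateField.adjoin_le_iff]
  rintro _ ⟨i, rfl⟩
  have : (d.w i)⁻¹ ∈ IntermediateField.adjoin L (Set.range fun i => (d.w i)⁻¹) :=
    IntermediateField.subset_adjoin _ _ ⟨i, rfl⟩
  have := inv_mem this
  rwa [inv_inv] at this

include d in
theorem card_w : (Nat.card (Fin (2 * l) × Fin 2) : Cardinal) ≤ Algebra.trdeg L Ω := by
  rw [← d.tr]
  have : Nat.card (Fin (2 * l) × Fin 2) = 4 * l := by
    rw [Nat.card_prod, Nat.card_eq_fintype_card, Nat.card_eq_fintype_card, Fintype.card_fin,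
      Fintype.card_fin]
    ring
  rw [this]

theorem algInd_w : AlgebraicIndependent L d.w :=
  algInd_of_algebraic _ (isAlgebraic_of_eq_top d.adjoin_w) d.card_w

theorem algInd_w_inv : AlgebraicIndependent L (fun i => (d.w i)⁻¹) :=
  algInd_of_algebraic _ (isAlgebraic_of_eq_top d.adjoin_w_inv) d.card_w

/-- the inversion exists. -/
theorem exists_inversion : ∃ θ : Ω ≃ₐ[L] Ω, ∀ a b, θ (d.u a b) = (d.u a b)⁻¹ := by
  obtain ⟨θ, hθ⟩ := exists_algEquiv d.w (fun i => (d.w i)⁻¹) d.algInd_w d.algInd_w_inv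
    d.adjoin_w d.adjoin_w_inv
  refine ⟨θ, ?_⟩
  apply d.u_cases (fun y => θ y = y⁻¹)
  · intro a ha b hb
    rcases Nat.eq_zero_or_pos a with h | h
    · subst h; rw [u_zero]; simp
    · obtain ⟨c, rfl⟩ : ∃ c, a = c + 1 := ⟨a - 1, by omega⟩
      have : b = 0 ∨ b = 1 := by omega
      rcases this with rfl | rfl
      · have := hθ (⟨c, by omega⟩, 0)
        simpa [w] using this
      · have := hθ (⟨c, by omega⟩, 1)
        simpa [w] using this
  · intro a _ h0 h1
    have h3 := d.u_three a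
    have h4 : d.u a 2 = (d.u a 0 * d.u a 1)⁻¹ := by
      apply eq_inv_of_mul_eq_one_left
      rw [mul_comm]; exact h3
    rw [h4, map_inv₀, map_mul, h0, h1, mul_inv, mul_inv, inv_inv, inv_inv, mul_inv, inv_inv,
      inv_inv]

theorem rank (hl3 : l ≤ 3) :
    LinearIndependent Ω (fun a : Fin (2 * l + 1) => mrow (d.u a 0) (d.u a 1)) := by
  apply linearIndependent_mrow (L := L) (2 * l) (fun a => d.u a 0) (fun a => d.u a 1) (d.u_zero 0)
    (d.u_zero 1) (by omega) d.algInd_w _ le_rfl

end CoreData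

end Pool.Agent.Helper68
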