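import Pool.Agent.Helper68.Pair
import Pool.Agent.Helper68.Hyper
import Pool.Agent.Helper68.Indep

/-! Coordinates of the interpolants with respect to echelon bases, and the relation tensor. -/

namespace Pool.Agent.Helper68

open Polynomial Finset

namespace CoreData

variable {l : ℕ} {L Ω : Type*} [Field L] [Field Ω] [Algebra L Ω] (d : CoreData l L Ω)
  (f g : Polynomial Ω) (i j : ℕ)

/-- the two coordinates of the `b`-th conjugate of `f`. -/
noncomputable def cc (f : Polynomial Ω) (i j : ℕ) (b : Fin 3) (m : Fin 2) : Ω :=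
  (d.sh b f).coeff (if m = 0 then i else j)

/-- entries of the echelon basis of the span of the `b`-th conjugates of `f` and `g`. -/
noncomputable def PP (b : Fin 3) (c : Fin 2) (h : ℕ) : Ω :=
  if c = 0 then (d.cc g i j b 1 * (d.sh b f).coeff h - d.cc f i j b 1 * (d.sh b g).coeff h) /
    minor (d.cc f i j) (d.cc g i j) b
  else (d.cc f i j b 0 * (d.sh b g).coeff h - d.cc g i j b 0 * (d.sh b f).coeff h) /
    minor (d.cc f i j) (d.cc g i j) b

/-- values of the echelon basis at the points. -/
noncomputable def PE (a : ℕ) (b : Fin 3) (c : Fin 2) : Ω :=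
  ∑ h ∈ range (l + 1), d.PP f g i j b c h * d.pt a ^ h

/-- the relation tensor. -/
noncomputable def zz (k : Fin 2 × Option (Fin 3)) : Ω := ten (d.cc f i j) k - ten (d.cc g i j) k

variable {d f g i j}

theorem coeff_sh (b n : ℕ) : (d.sh b f).coeff n = d.s3^[b] (f.coeff n) := by
  induction b with
  | zero => rfl
  | succ b ih => rw [sh_succ, coeff_map, ih, Function.iterate_succ_apply']; rfl

theorem iter_map_sub (s : Ω ≃+* Ω) (n : ℕ) (y z : Ω) : s^[n] (y - z) = s^[n] y - s^[n] z := by
  induction n with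
  | zero => rfl
  | succ n ih => simp only [Function.iterate_succ_apply', ih, map_sub]

theorem minor_ne (hD : f.coeff i * g.coeff j - f.coeff j * g.coeff i ≠ 0) (b : Fin 3) :
    minor (d.cc f i j) (d.cc g i j) b ≠ 0 := by
  have h : minor (d.cc f i j) (d.cc g i j) b =
      d.s3^[(b : ℕ)] (f.coeff i * g.coeff j - f.coeff j * g.coeff i) := by
    simp only [minor, cc, coeff_sh, iter_map_sub, iter_map_mul]
    simp
  rw [h]
  exact iter_ne_zero _ _ _ hD

theorem PP_zero (b : Fin 3) (h : ℕ) : d.PP f g i j b 0 h =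
    (d.cc g i j b 1 * (d.sh b f).coeff h - d.cc f i j b 1 * (d.sh b g).coeff h) /
      minor (d.cc f i j) (d.cc g i j) b := if_pos rfl

theorem PP_one (b : Fin 3) (h : ℕ) : d.PP f g i j b 1 h =
    (d.cc f i j b 0 * (d.sh b g).coeff h - d.cc g i j b 0 * (d.sh b f).coeff h) /
      minor (d.cc f i j) (d.cc g i j) b := if_neg (by decide)

theorem coeff_f_eq (hD : f.coeff i * g.coeff j - f.coeff j * g.coeff i ≠ 0) (b : Fin 3) (h : ℕ) :
    (d.sh b f).coeff h = d.cc f i j b 0 * d.PP f g i j b 0 h +
      d.cc f i j b 1 * d.PP f g i j b 1 h := by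
  have hm := minor_ne (d := d) hD b
  rw [PP_zero, PP_one]
  field_simp
  simp only [minor]
  ring

theorem coeff_g_eq (hD : f.coeff i * g.coeff j - f.coeff j * g.coeff i ≠ 0) (b : Fin 3) (h : ℕ) :
    (d.sh b g).coeff h = d.cc g i j b 0 * d.PP f g i j b 0 h +
      d.cc g i j b 1 * d.PP f g i j b 1 h := by
  have hm := minor_ne (d := d) hD b
  rw [PP_zero, PP_one]
  field_simp
  simp only [minor]
  ring

theorem eval_f_eq (hp : d.IsPair f g)
    (hD : f.coeff i * g.coeff j - f.coeff j * g.coeff i ≠ 0) (b : Fin 3) (a : ℕ) :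
    (d.sh b f).eval (d.pt a) = d.cc f i j b 0 * d.PE f g i j a b 0 +
      d.cc f i j b 1 * d.PE f g i j a b 1 := by
  rw [eval_eq_sum_range' (Nat.lt_succ_of_le (hp.interp' b).df)]
  simp only [PE, mul_sum, ← sum_add_distrib]
  refine sum_congr rfl fun h _ => ?_
  rw [coeff_f_eq hD b h]
  ring

theorem eval_g_eq (hp : d.IsPair f g)
    (hD : f.coeff i * g.coeff j - f.coeff j * g.coeff i ≠ 0) (b : Fin 3) (a : ℕ) :
    (d.sh b g).eval (d.pt a) = d.cc g i j b 0 * d.PE f g i j a b 0 +
      d.cc g i j b 1 * d.PE f g i j a b 1 := by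
  rw [eval_eq_sum_range' (Nat.lt_succ_of_le (hp.interp' b).dg)]
  simp only [PE, mul_sum, ← sum_add_distrib]
  refine sum_congr rfl fun h _ => ?_
  rw [coeff_g_eq hD b h]
  ring

/-- the relation satisfied by the relation tensor. -/
theorem relation (hp : d.IsPair f g)
    (hD : f.coeff i * g.coeff j - f.coeff j * g.coeff i ≠ 0) (a : ℕ) (ha : a < 2 * l + 1) :
    ∑ k, ten (d.PE f g i j a) k * d.zz f g i j k = 0 := by
  simp only [zz, mul_sub, sum_sub_distrib]
  rw [sum_ten_mul, sum_ten_mul]
  have h1 : ∏ b : Fin 3, (d.PE f g i j a b 0 * d.cc f i j b 0 +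
      d.PE f g i j a b 1 * d.cc f i j b 1) = ∏ b : Fin 3, (d.sh b f).eval (d.pt a) := by
    refine prod_congr rfl fun b _ => ?_
    rw [eval_f_eq hp hD]; ring
  have h2 : ∏ b : Fin 3, (d.PE f g i j a b 0 * d.cc g i j b 0 +
      d.PE f g i j a b 1 * d.cc g i j b 1) = ∏ b : Fin 3, (d.sh b g).eval (d.pt a) := by
    refine prod_congr rfl fun b _ => ?_
    rw [eval_g_eq hp hD]; ring
  rw [h1, h2]
  have h3 : ∀ b : Fin 3, (d.sh b f).eval (d.pt a) = d.u a b * (d.sh b g).eval (d.pt a) :=
    fun b => (hp.interp' b).ev a ha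
  simp only [h3, prod_mul_distrib]
  have h4 : ∏ b : Fin 3, d.u a b = 1 := by
    rw [Fin.prod_univ_three]; exact d.u_three a
  rw [h4]; ring

/-- which factors are numerators for the seven monomials. -/
def sel : Fin 7 → Fin 3 → Bool :=
  ![![false, false, false], ![true, false, false], ![false, true, false], ![false, false, true],
    ![true, true, false], ![true, false, true], ![false, true, true]]

theorem sel_prod (X Y Z : Ω) (hZ : X * Y * Z = 1) (m : Fin 7) :
    ((if sel m 0 then X else 1) * (if sel m 1 then Y else 1) * (if sel m 2 then Z else 1)) *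
      (X * Y) = mrow X Y m := by
  fin_cases m <;> simp [sel, mrow, expo]
  · ring
  · ring
  · rw [mul_comm]; exact hZ
  · ring
  · calc X * Z * (X * Y) = X * (X * Y * Z) := by ring
      _ = X := by rw [hZ, mul_one]
  · calc Y * Z * (X * Y) = Y * (X * Y * Z) := by ring
      _ = Y := by rw [hZ, mul_one]

theorem linearIndependent_T (hl3 : l ≤ 3) (hp : d.IsPair f g)
    (hD : f.coeff i * g.coeff j - f.coeff j * g.coeff i ≠ 0) :
    LinearIndependent Ω (fun a : Fin (2 * l + 1) => ten (d.PE f g i j a)) := by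
  rw [Fintype.linearIndependent_iff]
  intro c hc
  have hrank := Fintype.linearIndependent_iff.1 (d.rank hl3)
  -- pairing with pure tensors
  have hpair : ∀ A : Fin 3 → Fin 2 → Ω,
      ∑ a, c a * ∏ b, (d.PE f g i j a b 0 * A b 0 + d.PE f g i j a b 1 * A b 1) = 0 := by
    intro A
    have h1 : ∀ k, ∑ a, c a * ten (d.PE f g i j a) k = 0 := by
      intro k
      have := congrFun hc k
      simpa using this
    calc ∑ a, c a * ∏ b, (d.PE f g i j a b 0 * A b 0 + d.PE f g i j a b 1 * A b 1)
        = ∑ a, c a * ∑ k, ten (d.PE f g i j a) k * ten A k := by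
          refine sum_congr rfl fun a _ => ?_
          rw [sum_ten_mul]
      _ = ∑ k, (∑ a, c a * ten (d.PE f g i j a) k) * ten A k := by
          simp only [mul_sum, sum_mul]
          rw [sum_comm]
          refine sum_congr rfl fun k _ => sum_congr rfl fun a _ => by ring
      _ = 0 := by simp [h1]
  let c' : Fin (2 * l + 1) → Ω := fun a =>
    c a * (∏ b : Fin 3, (d.sh b g).eval (d.pt a)) / (d.u a 0 * d.u a 1)
  have hc' : ∑ a, c' a • mrow (d.u a 0) (d.u a 1) = 0 := by
    funext m
    have h2 := hpair (fun b => if sel m b then d.cc f i j b else d.cc g i j b)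
    rw [Finset.sum_apply, Pi.zero_apply, ← h2]
    refine sum_congr rfl fun a _ => ?_
    have h3 : ∀ b : Fin 3, (d.PE f g i j a b 0 * (if sel m b then d.cc f i j b else
        d.cc g i j b) 0 + d.PE f g i j a b 1 * (if sel m b then d.cc f i j b else
        d.cc g i j b) 1) = (if sel m b then d.u a b else 1) * (d.sh b g).eval (d.pt a) := by
      intro b
      by_cases hs : sel m b
      · simp only [hs, if_true]
        rw [← (hp.interp' b).ev a a.2, eval_f_eq hp hD]; ring
      · simp only [hs, Bool.false_eq_true, if_false]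
        rw [one_mul, eval_g_eq hp hD]; ring
    simp only [h3, prod_mul_distrib]
    rw [Fin.prod_univ_three (fun b => if sel m b then d.u a b else 1)]
    have h4 := sel_prod (d.u a 0) (d.u a 1) (d.u a 2) (d.u_three a) m
    simp only [Pi.smul_apply, smul_eq_mul, ← h4, c']
    have h5 : d.u a 0 ≠ 0 := d.u_ne _ _
    have h6 : d.u a 1 ≠ 0 := d.u_ne _ _
    field_simp
    simp
  intro a
  have h7 := hrank c' hc' a
  have h8 : (∏ b : Fin 3, (d.sh b g).eval (d.pt a)) ≠ 0 :=
    prod_ne_zero_iff.2 fun b _ => hp.g_ne b a a.2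
  have h9 : d.u a 0 * d.u a 1 ≠ 0 := mul_ne_zero (d.u_ne _ _) (d.u_ne _ _)
  simp only [c'] at h7
  rw [div_eq_zero_iff] at h7
  rcases h7 with h7 | h7
  · exact (mul_eq_zero.1 h7).resolve_right h8
  · exact absurd h7 h9

end CoreData

end Pool.Agent.Helper68
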