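import Mathlib

/-! Solving a homogeneous linear system of full rank over a subfield: all coordinates of a
solution are combinations, with coefficients in the subfield, of a fixed set of coordinates. -/

namespace Pool.Agent.Helper68

theorem select {L Ω : Type*} [Field L] [Field Ω] [Algebra L Ω] (E : IntermediateField L Ω)
    {ι : Type*} [Fintype ι] [DecidableEq ι] {q : ℕ} (T : Fin q → ι → Ω) (hT : ∀ a i, T a i ∈ E)
    (hind : LinearIndependent Ω T) :
    ∃ J : Finset ι, J.card + q = Fintype.card ι ∧ ∃ C : ι → ι → Ω, (∀ i j, C i j ∈ E) ∧
      ∀ y : ι → Ω, (∀ a, ∑ i, T a i * y i = 0) → ∀ i, y i = ∑ j ∈ J, C i j * y j := by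
  classical
  let A : Matrix (Fin q) ι E := fun a i => ⟨T a i, hT a i⟩
  have hindA : LinearIndependent E A.row := by
    have h1 : LinearIndependent E T := hind.restrict_scalars (R := E) (by
      intro x y hxy
      simpa [Algebra.smul_def] using hxy)
    let φ : (ι → E) →ₗ[E] (ι → Ω) := LinearMap.pi fun i =>
      (Algebra.linearMap E Ω).comp (LinearMap.proj i)
    have h2 : T = φ ∘ A.row := by
      funext a i
      rfl
    rw [h2] at h1
    exact LinearIndependent.of_comp φ h1
  have hrank : A.rank = q := by
    have := hindA.rank_matrix
    simpa using this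
  obtain ⟨κ, a, ha, hspan, hli⟩ := exists_linearIndependent' E (A.col)
  have : Finite κ := Finite.of_injective a ha
  have : Fintype κ := Fintype.ofFinite κ
  have hcard : Fintype.card κ = q := by
    have h1 := linearIndependent_iff_card_eq_finrank_span.mp hli
    rw [h1, Set.finrank, hspan, ← A.rank_eq_finrank_span_cols, hrank]
  let e : Fin q ≃ κ := (Fintype.equivFinOfCardEq hcard).symm
  let a' : Fin q → ι := a ∘ e
  have ha' : Function.Injective a' := ha.comp e.injective
  let B : Matrix (Fin q) (Fin q) E := A.submatrix id a'
  have hB : IsUnit B := by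
    rw [← Matrix.linearIndependent_cols_iff_isUnit]
    have : B.col = (A.col ∘ a) ∘ e := by
      funext k; rfl
    rw [this]
    exact hli.comp e e.injective
  have hBdet : IsUnit B.det := (Matrix.isUnit_iff_isUnit_det B).1 hB
  let M : Matrix (Fin q) ι E := B⁻¹ * A
  have hM : ∀ k k', M k (a' k') = if k = k' then 1 else 0 := by
    intro k k'
    have h1 : (B⁻¹ * B) k k' = (1 : Matrix (Fin q) (Fin q) E) k k' := by
      rw [Matrix.nonsing_inv_mul _ hBdet]
    rw [Matrix.one_apply] at h1
    rw [← h1]
    rfl
  let J : Finset ι := Finset.univ \ Finset.univ.image a'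
  let C : ι → ι → Ω := fun i j =>
    if h : ∃ k, a' k = i then -((M h.choose j : E) : Ω) else if i = j then 1 else 0
  refine ⟨J, ?_, C, ?_, ?_⟩
  · have h1 : (Finset.univ.image a').card = q := by
      rw [Finset.card_image_of_injective _ ha']; simp
    have h2 : J.card = Fintype.card ι - q := by
      rw [Finset.card_sdiff_of_subset (Finset.subset_univ _), h1, Finset.card_univ]
    have h3 : q ≤ Fintype.card ι := by
      rw [← h1]; exact Finset.card_le_univ _
    omega
  · intro i j
    simp only [C]
    split_ifs
    · exact neg_mem (M _ j).2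
    · exact one_mem _
    · exact zero_mem _
  · intro y hy i
    have hMy : ∀ k, ∑ j, ((M k j : E) : Ω) * y j = 0 := by
      intro k
      have h1 : ∀ j, ((M k j : E) : Ω) = ∑ b, ((B⁻¹ k b : E) : Ω) * T b j := by
        intro j
        simp only [M, Matrix.mul_apply]
        push_cast
        rfl
      simp only [h1, Finset.sum_mul]
      rw [Finset.sum_comm]
      apply Finset.sum_eq_zero
      intro b _
      have := hy b
      calc ∑ j, ((B⁻¹ k b : E) : Ω) * T b j * y j = ((B⁻¹ k b : E) : Ω) * ∑ j, T b j * y j := by
            rw [Finset.mul_sum]; refine Finset.sum_congr rfl fun j _ => by ring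
        _ = 0 := by rw [this, mul_zero]
    by_cases h : ∃ k, a' k = i
    · have hCi : ∀ j, C i j = -((M h.choose j : E) : Ω) := by
        intro j; simp only [C]; rw [dif_pos h]
      simp only [hCi]
      set k := h.choose with hk
      have hki : a' k = i := h.choose_spec
      have h2 := hMy k
      rw [← Finset.sum_sdiff (Finset.subset_univ (Finset.univ.image a'))] at h2
      have h3 : ∑ j ∈ Finset.univ.image a', ((M k j : E) : Ω) * y j = y i := by
        rw [Finset.sum_image (fun x _ y _ hxy => ha' hxy)]
        simp only [hM]
        rw [Finset.sum_eq_single k]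
        · rw [if_pos rfl, hki]; simp
        · intro b _ hb
          rw [if_neg (Ne.symm hb)]; simp
        · simp
      rw [h3] at h2
      simp only [neg_mul, Finset.sum_neg_distrib]
      linear_combination h2
    · have hCi : ∀ j, C i j = if i = j then 1 else 0 := by
        intro j; simp only [C]; rw [dif_neg h]
      simp only [hCi]
      rw [Finset.sum_eq_single i]
      · simp
      · intro b _ hb
        rw [if_neg (Ne.symm hb), zero_mul]
      · intro hi
        exfalso
        apply hi
        simp only [J, Finset.mem_sdiff, Finset.mem_univ, true_and, Finset.mem_image]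
        intro ⟨k, hk⟩
        exact h ⟨k, hk⟩

end Pool.Agent.Helper68
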