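import Pool.Agent.Helper68.Sym
import Pool.Agent.Helper68.Select
import Pool.Agent.Helper68.FieldGen

/-! The fixed field of the inversion is purely transcendental (split form, with symmetries). -/

namespace Pool.Agent.Helper68

open Polynomial Finset

namespace CoreData

variable {l : ℕ} {L Ω : Type*} [Field L] [Field Ω] [Algebra L Ω] {d : CoreData l L Ω}
  {f g : Polynomial Ω} {i j : ℕ}

theorem exists_vandermonde_inverse (d : CoreData l L Ω) : ∃ W : Matrix (Fin 3) (Fin 3) L,
    ∀ b b' : Fin 3, ∑ e : Fin 3, W b e * d.β b' ^ (e : ℕ) = if b = b' then 1 else 0 := by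
  let V : Matrix (Fin 3) (Fin 3) L := (Matrix.vandermonde fun b : Fin 3 => d.β b).transpose
  have hinj : Function.Injective fun b : Fin 3 => d.β b := by
    intro a b hab
    exact Fin.ext (d.hβ a a.2 b b.2 hab)
  have hdet : IsUnit V.det := by
    rw [Matrix.det_transpose, isUnit_iff_ne_zero]
    exact Matrix.det_vandermonde_ne_zero_iff.2 hinj
  refine ⟨V⁻¹, fun b b' => ?_⟩
  have h := congrFun (congrFun (Matrix.nonsing_inv_mul V hdet) b) b'
  rw [Matrix.mul_apply, Matrix.one_apply] at h
  rw [← h]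
  rfl

/-- the first part of the transcendence basis. -/
noncomputable def tr1 (d : CoreData l L Ω) (f g : Polynomial Ω) (i j : ℕ) (h : ℕ) (c : Fin 2)
    (e : Fin 3) : Ω := ∑ b : Fin 3, algebraMap L Ω (d.β b) ^ (e : ℕ) * d.PP f g i j b c h

/-- semi-invariant coordinates of the relation tensor. -/
noncomputable def yv (d : CoreData l L Ω) (f g : Polynomial Ω) (i j : ℕ) :
    Fin 2 × Option (Fin 3) → Ω
  | (c, none) => d.zz f g i j (c, none)
  | (c, some e) => ∑ b : Fin 3, algebraMap L Ω (d.β b) ^ (e : ℕ) * d.zz f g i j (c, some b)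

theorem invert {W : Matrix (Fin 3) (Fin 3) L}
    (hW : ∀ b b' : Fin 3, ∑ e : Fin 3, W b e * d.β b' ^ (e : ℕ) = if b = b' then 1 else 0)
    (v : Fin 3 → Ω) (b : Fin 3) :
    v b = ∑ e : Fin 3, algebraMap L Ω (W b e) *
      ∑ b' : Fin 3, algebraMap L Ω (d.β b') ^ (e : ℕ) * v b' := by
  have h1 : ∀ b' : Fin 3, ∑ e : Fin 3, algebraMap L Ω (W b e) * algebraMap L Ω (d.β b') ^ (e : ℕ) =
      if b = b' then 1 else 0 := by
    intro b'
    have := congrArg (algebraMap L Ω) (hW b b')
    simp only [map_sum, map_mul, map_pow] at this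
    rw [this]
    split_ifs <;> simp
  calc v b = ∑ b' : Fin 3, (if b = b' then 1 else 0) * v b' := by simp
    _ = ∑ b' : Fin 3, (∑ e : Fin 3, algebraMap L Ω (W b e) * algebraMap L Ω (d.β b') ^ (e : ℕ)) * v b' := by
        simp only [h1]
    _ = _ := by
        simp only [sum_mul, mul_sum]
        rw [sum_comm]
        refine sum_congr rfl fun e _ => sum_congr rfl fun b' _ => by ring

theorem zz_none (c : Fin 2) : d.zz f g i j (c, none) = d.yv f g i j (c, none) := rfl

theorem zz_some {W : Matrix (Fin 3) (Fin 3) L}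
    (hW : ∀ b b' : Fin 3, ∑ e : Fin 3, W b e * d.β b' ^ (e : ℕ) = if b = b' then 1 else 0)
    (c : Fin 2) (b : Fin 3) : d.zz f g i j (c, some b) =
      ∑ e : Fin 3, algebraMap L Ω (W b e) * d.yv f g i j (c, some e) :=
  invert hW (fun b => d.zz f g i j (c, some b)) b

theorem PP_zero_i (hD : f.coeff i * g.coeff j - f.coeff j * g.coeff i ≠ 0) (b : Fin 3) :
    d.PP f g i j b 0 i = 1 := by
  have hm := minor_ne (d := d) hD b
  rw [PP_zero, div_eq_one_iff_eq hm]
  simp only [minor, cc]
  simp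
  ring

theorem PP_one_i (b : Fin 3) : d.PP f g i j b 1 i = 0 := by
  rw [PP_one]
  simp only [cc]
  simp
  left
  ring

theorem PP_zero_j (b : Fin 3) : d.PP f g i j b 0 j = 0 := by
  rw [PP_zero]
  simp only [cc]
  simp
  left
  ring

theorem PP_one_j (hD : f.coeff i * g.coeff j - f.coeff j * g.coeff i ≠ 0) (b : Fin 3) :
    d.PP f g i j b 1 j = 1 := by
  have hm := minor_ne (d := d) hD b
  rw [PP_one, div_eq_one_iff_eq hm]
  simp only [minor, cc]
  simp
  ring

/-- the hyperdeterminant is the square of the product of the minors. -/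
theorem hyperdet (F G : Fin 3 → Fin 2 → Ω) :
    (minor F G 0 * minor F G 1 * minor F G 2) ^ 2 =
    ((ten F (0, none) - ten G (0, none)) * (ten F (1, none) - ten G (1, none)) +
      (ten F (0, some 0) - ten G (0, some 0)) * (ten F (1, some 0) - ten G (1, some 0)) -
      (ten F (0, some 2) - ten G (0, some 2)) * (ten F (1, some 2) - ten G (1, some 2)) -
      (ten F (1, some 1) - ten G (1, some 1)) * (ten F (0, some 1) - ten G (0, some 1))) ^ 2 -
    4 * ((ten F (0, none) - ten G (0, none)) * (ten F (1, some 0) - ten G (1, some 0)) -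
      (ten F (0, some 2) - ten G (0, some 2)) * (ten F (0, some 1) - ten G (0, some 1))) *
      ((ten F (0, some 0) - ten G (0, some 0)) * (ten F (1, none) - ten G (1, none)) -
      (ten F (1, some 1) - ten G (1, some 1)) * (ten F (1, some 2) - ten G (1, some 2))) := by
  simp [ten, minor]
  ring

theorem exists_yv_ne {W : Matrix (Fin 3) (Fin 3) L}
    (hW : ∀ b b' : Fin 3, ∑ e : Fin 3, W b e * d.β b' ^ (e : ℕ) = if b = b' then 1 else 0)
    (hD : f.coeff i * g.coeff j - f.coeff j * g.coeff i ≠ 0) :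
    ∃ k, d.yv f g i j k ≠ 0 := by
  by_contra hcon
  push Not at hcon
  have hz : ∀ k, d.zz f g i j k = 0 := by
    rintro ⟨c, _ | b⟩
    · rw [zz_none]; exact hcon _
    · rw [zz_some hW]; simp [hcon]
  have h := hyperdet (d.cc f i j) (d.cc g i j)
  have hz' : ∀ k, ten (d.cc f i j) k - ten (d.cc g i j) k = 0 := hz
  simp only [hz'] at h
  have h2 : minor (d.cc f i j) (d.cc g i j) 0 * minor (d.cc f i j) (d.cc g i j) 1 *
      minor (d.cc f i j) (d.cc g i j) 2 ≠ 0 :=
    mul_ne_zero (mul_ne_zero (minor_ne hD 0) (minor_ne hD 1)) (minor_ne hD 2)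
  apply h2
  apply pow_eq_zero_iff (two_ne_zero) |>.1
  rw [h]; ring

theorem cominor_ne (hD : f.coeff i * g.coeff j - f.coeff j * g.coeff i ≠ 0) (b : Fin 3) :
    cominor (d.cc f i j) (d.cc g i j) b ≠ 0 := by
  fin_cases b
  · exact mul_ne_zero (minor_ne hD 1) (minor_ne hD 2)
  · exact mul_ne_zero (minor_ne hD 0) (minor_ne hD 2)
  · exact mul_ne_zero (minor_ne hD 0) (minor_ne hD 1)

end CoreData

end Pool.Agent.Helper68
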