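import Mathlib

/-! The split form of the torus: the characters `xx a b`, `a` modulo `2 l + 1`, `b` modulo `3`,
and their partial products `u a b`. -/

namespace Pool.Agent.Helper68

open Finset

/-- Hypotheses on three commuting automorphisms and the generic point. -/
structure CoreData (l : ℕ) (L Ω : Type*) [Field L] [Field Ω] [Algebra L Ω] where
  s2 : Ω ≃+* Ω
  s3 : Ω ≃+* Ω
  sq : Ω ≃+* Ω
  α : ℕ → L
  β : ℕ → L
  x : Ω
  hl : 1 ≤ l
  hα : ∀ a < 2 * l + 1, ∀ b < 2 * l + 1, α a = α b → a = b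
  αp : ∀ a, α (a + (2 * l + 1)) = α a
  hβ : ∀ a < 3, ∀ b < 3, β a = β b → a = b
  βp : ∀ b, β (b + 3) = β b
  s2α : ∀ a, s2 (algebraMap L Ω (α a)) = algebraMap L Ω (α a)
  s3α : ∀ a, s3 (algebraMap L Ω (α a)) = algebraMap L Ω (α a)
  sqα : ∀ a, sq (algebraMap L Ω (α a)) = algebraMap L Ω (α (a + 1))
  s2β : ∀ a, s2 (algebraMap L Ω (β a)) = algebraMap L Ω (β a)
  sqβ : ∀ a, sq (algebraMap L Ω (β a)) = algebraMap L Ω (β a)
  s3β : ∀ a, s3 (algebraMap L Ω (β a)) = algebraMap L Ω (β (a + 1))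
  c23 : ∀ y, s2 (s3 y) = s3 (s2 y)
  c2q : ∀ y, s2 (sq y) = sq (s2 y)
  c3q : ∀ y, s3 (sq y) = sq (s3 y)
  o3 : ∀ y, s3 (s3 (s3 y)) = y
  oq : ∀ y, sq^[2 * l + 1] y = y
  x0 : x ≠ 0
  n2 : x * s2 x = 1
  n3 : x * s3 x * s3 (s3 x) = 1
  nq : ∏ i ∈ range (2 * l + 1), sq^[i] x = 1
  gen : IntermediateField.adjoin L
    (Set.range fun p : ℕ × ℕ => sq^[p.1] (s3^[p.2] x)) = ⊤
  tr : ((4 * l : ℕ) : Cardinal) = Algebra.trdeg L Ω

namespace CoreData

variable {l : ℕ} {L Ω : Type*} [Field L] [Field Ω] [Algebra L Ω] (d : CoreData l L Ω)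

/-- the characters. -/
def xx (a b : ℕ) : Ω := d.sq^[a] (d.s3^[b] d.x)

/-- partial products. -/
def u (a b : ℕ) : Ω := ∏ i ∈ range a, d.xx i b

omit [Field Ω] in
theorem iter_comm {f g : Ω → Ω} (h : ∀ y, f (g y) = g (f y)) (n : ℕ) (y : Ω) :
    f (g^[n] y) = g^[n] (f y) := by
  induction n generalizing y with
  | zero => rfl
  | succ n ih => rw [Function.iterate_succ_apply, Function.iterate_succ_apply, ih, h]

theorem iter_map_mul (s : Ω ≃+* Ω) (n : ℕ) (y z : Ω) : s^[n] (y * z) = s^[n] y * s^[n] z := by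
  induction n with
  | zero => rfl
  | succ n ih => simp only [Function.iterate_succ_apply', ih, map_mul]

theorem iter_map_one (s : Ω ≃+* Ω) (n : ℕ) : s^[n] (1 : Ω) = 1 := by
  induction n with
  | zero => rfl
  | succ n ih => simp only [Function.iterate_succ_apply', ih, map_one]

theorem iter_ne_zero (s : Ω ≃+* Ω) (n : ℕ) (y : Ω) (hy : y ≠ 0) : s^[n] y ≠ 0 := by
  induction n with
  | zero => exact hy
  | succ n ih =>
    rw [Function.iterate_succ_apply']
    exact (map_ne_zero s).2 ih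

theorem iter_map_inv (s : Ω ≃+* Ω) (n : ℕ) (y : Ω) : s^[n] y⁻¹ = (s^[n] y)⁻¹ := by
  induction n with
  | zero => rfl
  | succ n ih => simp only [Function.iterate_succ_apply', ih, map_inv₀]

theorem iter_map_prod (s : Ω ≃+* Ω) (n : ℕ) (m : ℕ) (f : ℕ → Ω) :
    s^[n] (∏ i ∈ range m, f i) = ∏ i ∈ range m, s^[n] (f i) := by
  induction m with
  | zero => simp [iter_map_one]
  | succ m ih => rw [prod_range_succ, prod_range_succ, iter_map_mul, ih]

theorem xx_ne (a b : ℕ) : d.xx a b ≠ 0 :=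
  iter_ne_zero _ _ _ (iter_ne_zero _ _ _ d.x0)

theorem u_ne (a b : ℕ) : d.u a b ≠ 0 := prod_ne_zero_iff.2 fun _ _ => d.xx_ne _ _

theorem u_zero (b : ℕ) : d.u 0 b = 1 := by simp [u]

theorem u_succ (a b : ℕ) : d.u (a + 1) b = d.u a b * d.xx a b := prod_range_succ _ _

theorem sq_xx (a b : ℕ) : d.sq (d.xx a b) = d.xx (a + 1) b := by
  simp only [xx, Function.iterate_succ_apply']

theorem s3_xx (a b : ℕ) : d.s3 (d.xx a b) = d.xx a (b + 1) := by
  simp only [xx]
  rw [iter_comm (fun y => d.c3q y), Function.iterate_succ_apply']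

theorem s2x : d.s2 d.x = d.x⁻¹ := by
  apply eq_inv_of_mul_eq_one_left
  rw [mul_comm]; exact d.n2

theorem s2_xx (a b : ℕ) : d.s2 (d.xx a b) = (d.xx a b)⁻¹ := by
  simp only [xx]
  rw [iter_comm (fun y => d.c2q y), iter_comm (fun y => d.c23 y), s2x, iter_map_inv, iter_map_inv]

theorem xx_add_q (a b : ℕ) : d.xx (a + (2 * l + 1)) b = d.xx a b := by
  simp only [xx]
  rw [Function.iterate_add_apply, d.oq]

theorem xx_add_three (a b : ℕ) : d.xx a (b + 3) = d.xx a b := by
  simp only [xx]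
  congr 1
  rw [Function.iterate_add_apply]
  congr 1
  exact d.o3 d.x

theorem xx_prod (b : ℕ) : ∏ i ∈ range (2 * l + 1), d.xx i b = 1 := by
  have h1 : ∀ i, d.xx i b = d.s3^[b] (d.sq^[i] d.x) := by
    intro i
    simp only [xx]
    have h2 : ∀ y, d.sq^[i] (d.s3 y) = d.s3 (d.sq^[i] y) := fun y =>
      (iter_comm (fun y => d.c3q y) i y).symm
    exact iter_comm h2 b d.x
  simp only [h1]
  rw [← iter_map_prod, d.nq, iter_map_one]

theorem u_q (b : ℕ) : d.u (2 * l + 1) b = 1 := d.xx_prod b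

theorem u_add_q (a b : ℕ) : d.u (a + (2 * l + 1)) b = d.u a b := by
  simp only [u]
  rw [add_comm, prod_range_add, xx_prod, one_mul]
  refine prod_congr rfl fun i _ => ?_
  rw [add_comm, xx_add_q]

theorem u_one (b : ℕ) : d.u 1 b = d.xx 0 b := by simp [u]

theorem sq_u (a b : ℕ) : d.sq (d.u a b) = d.u (a + 1) b / d.u 1 b := by
  rw [eq_div_iff (d.u_ne 1 b), u_one]
  simp only [u, map_prod, sq_xx]
  rw [prod_range_succ']

theorem s3_u (a b : ℕ) : d.s3 (d.u a b) = d.u a (b + 1) := by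
  simp only [u, map_prod, s3_xx]

theorem s2_u (a b : ℕ) : d.s2 (d.u a b) = (d.u a b)⁻¹ := by
  simp only [u, map_prod, s2_xx, prod_inv_distrib]

theorem u_add_three (a b : ℕ) : d.u a (b + 3) = d.u a b := by
  simp only [u, xx_add_three]

theorem xx_three (a : ℕ) : d.xx a 0 * d.xx a 1 * d.xx a 2 = 1 := by
  have h := congrArg (fun y => d.sq^[a] y) d.n3
  simp only [iter_map_mul, iter_map_one] at h
  exact h

theorem u_three (a : ℕ) : d.u a 0 * d.u a 1 * d.u a 2 = 1 := by
  simp only [u, ← prod_mul_distrib, xx_three]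
  simp

theorem xx_eq (a b : ℕ) : d.xx a b = d.u (a + 1) b / d.u a b := by
  rw [u_succ, mul_div_cancel_left₀ _ (d.u_ne a b)]

/-- an intermediate field containing the `u a b` for `a ≤ 2 l`, `b < 2` is everything. -/
theorem eq_top_of_u_mem (S : IntermediateField L Ω)
    (h : ∀ a ≤ 2 * l, ∀ b < 2, d.u a b ∈ S) : S = ⊤ := by
  have h2 : ∀ a ≤ 2 * l, ∀ b < 3, d.u a b ∈ S := by
    intro a ha b hb
    rcases Nat.lt_or_ge b 2 with h1 | h1
    · exact h a ha b h1
    · obtain rfl : b = 2 := by omega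
      have h3 := d.u_three a
      have h4 : d.u a 2 = (d.u a 0 * d.u a 1)⁻¹ := by
        apply eq_inv_of_mul_eq_one_left
        rw [mul_comm]; exact h3
      rw [h4]
      exact inv_mem (mul_mem (h a ha 0 (by norm_num)) (h a ha 1 (by norm_num)))
  have h3 : ∀ a, ∀ b < 3, d.u a b ∈ S := by
    intro a b hb
    induction a using Nat.strong_induction_on with
    | _ a ih =>
      by_cases ha : a ≤ 2 * l
      · exact h2 a ha b hb
      · obtain ⟨c, rfl⟩ : ∃ c, a = c + (2 * l + 1) := ⟨a - (2 * l + 1), by omega⟩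
        rw [u_add_q]
        exact ih c (by omega)
  have h4 : ∀ a b, d.u a b ∈ S := by
    intro a b
    induction b using Nat.strong_induction_on with
    | _ b ih =>
      by_cases hb : b < 3
      · exact h3 a b hb
      · obtain ⟨c, rfl⟩ : ∃ c, b = c + 3 := ⟨b - 3, by omega⟩
        rw [u_add_three]
        exact ih c (by omega)
  rw [eq_top_iff, ← d.gen, IntermediateField.adjoin_le_iff]
  rintro _ ⟨⟨a, b⟩, rfl⟩
  have := d.xx_eq a b
  simp only [xx] at this
  simp only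
  rw [this]
  exact div_mem (h4 _ _) (h4 _ _)

theorem x_ne_one : d.x ≠ 1 := by
  intro h
  have h1 : (⊥ : IntermediateField L Ω) = ⊤ := by
    apply d.eq_top_of_u_mem
    intro a _ b _
    have h2 : ∀ a b, d.xx a b = 1 := by
      intro a b
      simp only [xx, h, iter_map_one]
    simp only [u, h2]
    simp
  have h2 : Algebra.IsAlgebraic L Ω := by
    constructor
    intro y
    have : y ∈ (⊥ : IntermediateField L Ω) := by rw [h1]; trivial
    obtain ⟨c, rfl⟩ := IntermediateField.mem_bot.1 this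
    exact isAlgebraic_algebraMap c
  have h3 : Algebra.trdeg L Ω = 0 := trdeg_eq_zero
  have h4 := d.tr
  rw [h3] at h4
  have h5 : 4 * l = 0 := by exact_mod_cast h4
  have := d.hl
  omega

end CoreData

end Pool.Agent.Helper68
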