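import Mathlib

/-! Descent of a rational function field along a Galois extension of the constants. -/

namespace Pool.Agent.Helper68

open IntermediateField

variable {k L Ω : Type*} [Field k] [Field L] [Field Ω] [Algebra k L] [Algebra k Ω] [Algebra L Ω]
  [IsScalarTower k L Ω] [FiniteDimensional k L] [IsGalois k L]

theorem mem_adjoin_of_fixed (ρ : (L ≃ₐ[k] L) →* (Ω ≃ₐ[k] Ω))
    (hρ : ∀ (τ : L ≃ₐ[k] L) (c : L), ρ τ (algebraMap L Ω c) = algebraMap L Ω (τ c))
    {κ : Type*} (t : κ → Ω) (ht : ∀ i τ, ρ τ (t i) = t i) (y : Ω)
    (hy : y ∈ IntermediateField.adjoin L (Set.range t)) (hyf : ∀ τ, ρ τ y = y) :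
    y ∈ IntermediateField.adjoin k (Set.range t) := by
  classical
  set E := IntermediateField.adjoin k (Set.range t) with hE
  have hfix : ∀ e ∈ E, ∀ τ, ρ τ e = e := by
    intro e he τ
    induction he using IntermediateField.adjoin_induction with
    | mem x hx => obtain ⟨i, rfl⟩ := hx; exact ht i τ
    | algebraMap x => exact (ρ τ).commutes x
    | add x y _ _ hx hy => rw [map_add, hx, hy]
    | inv x _ hx => rw [map_inv₀, hx]
    | mul x y _ _ hx hy => rw [map_mul, hx, hy]
  have halg : ∀ x ∈ Set.range (algebraMap L Ω), IsAlgebraic E x := by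
    rintro _ ⟨c, rfl⟩
    have h1 : IsIntegral k c := Algebra.IsIntegral.isIntegral c
    have h2 : IsIntegral k (algebraMap L Ω c) := h1.map (IsScalarTower.toAlgHom k L Ω)
    exact h2.tower_top.isAlgebraic
  -- everything in `L(t)` lies in the `E`-span of `L`
  have hspan : ∀ w ∈ IntermediateField.adjoin L (Set.range t),
      w ∈ Submodule.span E (Set.range (algebraMap L Ω)) := by
    intro w hw
    have h1 : w ∈ IntermediateField.adjoin E (Set.range (algebraMap L Ω)) := by
      induction hw using IntermediateField.adjoin_induction with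
      | mem x hx =>
        have : x ∈ E := IntermediateField.subset_adjoin _ _ hx
        exact IntermediateField.algebraMap_mem _ (⟨x, this⟩ : E)
      | algebraMap x => exact IntermediateField.subset_adjoin _ _ ⟨x, rfl⟩
      | add x y _ _ hx hy => exact add_mem hx hy
      | inv x _ hx => exact inv_mem hx
      | mul x y _ _ hx hy => exact mul_mem hx hy
    rw [← IntermediateField.mem_toSubalgebra,
      IntermediateField.adjoin_toSubalgebra_of_isAlgebraic halg] at h1
    have h2 : Submonoid.closure (Set.range (algebraMap L Ω)) =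
        MonoidHom.mrange (algebraMap L Ω : L →* Ω) := by
      apply le_antisymm
      · rw [Submonoid.closure_le]
        rintro _ ⟨c, rfl⟩
        exact ⟨c, rfl⟩
      · rintro _ ⟨c, rfl⟩
        exact Submonoid.subset_closure ⟨c, rfl⟩
    have h3 : w ∈ Subalgebra.toSubmodule (Algebra.adjoin E (Set.range (algebraMap L Ω))) := h1
    rw [Algebra.adjoin_eq_span, h2] at h3
    exact h3
  have htr' : ∀ w ∈ Submodule.span E (Set.range (algebraMap L Ω)), ∑ τ, ρ τ w ∈ E := by
    intro w this
    induction this using Submodule.span_induction with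
    | mem x hx =>
      obtain ⟨c, rfl⟩ := hx
      simp only [hρ]
      rw [← map_sum, ← trace_eq_sum_automorphisms, ← IsScalarTower.algebraMap_apply]
      exact IntermediateField.algebraMap_mem _ _
    | zero => simp
    | add x y _ _ hx hy =>
      simp only [map_add, Finset.sum_add_distrib]
      exact add_mem hx hy
    | smul e x _ hx =>
      have : ∀ τ, ρ τ (e • x) = (e : Ω) * ρ τ x := by
        intro τ
        have : e • x = (e : Ω) * x := rfl
        rw [this, map_mul, hfix e e.2]
      simp only [this, ← Finset.mul_sum]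
      exact mul_mem e.2 hx
  have htr : ∀ w ∈ IntermediateField.adjoin L (Set.range t), ∑ τ, ρ τ w ∈ E :=
    fun w hw => htr' w (hspan w hw)
  obtain ⟨lam, hlam⟩ := Algebra.trace_surjective k L 1
  have h5 : ∑ τ, ρ τ (algebraMap L Ω lam * y) = y := by
    simp only [map_mul, hyf, hρ]
    rw [← Finset.sum_mul, ← map_sum, ← trace_eq_sum_automorphisms,
      ← IsScalarTower.algebraMap_apply, hlam, map_one, one_mul]
  rw [← h5]
  exact htr _ (mul_mem (IntermediateField.algebraMap_mem _ _) hy)

end Pool.Agent.Helper68
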