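import Pool.Agent.Helper68.Main

/-! The fixed field of the inversion is purely transcendental (split form, with symmetries). -/

namespace Pool.Agent.Helper68

open Polynomial Finset

namespace CoreData

variable {l : ℕ} {L Ω : Type*} [Field L] [Field Ω] [Algebra L Ω] {d : CoreData l L Ω}
  {f g : Polynomial Ω} {i j : ℕ}

/-- automorphisms scaling the tensor and fixing the echelon entries fix the coordinates. -/
theorem tr1_fixed {θ : Ω ≃+* Ω} (hβ : ∀ b, θ (algebraMap L Ω (d.β b)) = algebraMap L Ω (d.β b))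
    (hP : ∀ b m h, θ (d.PP f g i j b m h) = d.PP f g i j b m h) (h : ℕ) (c : Fin 2) (e : Fin 3) :
    θ (d.tr1 f g i j h c e) = d.tr1 f g i j h c e := by
  simp only [tr1, map_sum, map_mul, map_pow, hβ, hP]

theorem yv_scale {θ : Ω ≃+* Ω} (hβ : ∀ b, θ (algebraMap L Ω (d.β b)) = algebraMap L Ω (d.β b))
    (C : Ω) (hz : ∀ k, θ (d.zz f g i j k) = C * d.zz f g i j k) (k : Fin 2 × Option (Fin 3)) :
    θ (d.yv f g i j k) = C * d.yv f g i j k := by
  rcases k with ⟨c, _ | e⟩
  · exact hz _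
  · simp only [yv, map_sum, map_mul, map_pow, hβ, hz, mul_sum]
    refine sum_congr rfl fun b _ => by ring

theorem βsucc (d : CoreData l L Ω) (b : Fin 3) :
    d.s3 (algebraMap L Ω (d.β b)) = algebraMap L Ω (d.β ((b + 1 : Fin 3) : ℕ)) := by
  rw [d.s3β]
  fin_cases b
  · rfl
  · rfl
  · have := d.βp 0
    simp only [zero_add] at this
    change algebraMap L Ω (d.β 3) = algebraMap L Ω (d.β 0)
    rw [this]

theorem s3_tr1 (h : ℕ) (c : Fin 2) (e : Fin 3) :
    d.s3 (d.tr1 f g i j h c e) = d.tr1 f g i j h c e := by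
  simp only [tr1, map_sum, map_mul, map_pow, (s3_effect (d := d)).1, βsucc]
  exact Equiv.sum_comp (Equiv.addRight (1 : Fin 3))
    (fun b : Fin 3 => algebraMap L Ω (d.β b) ^ (e : ℕ) * d.PP f g i j b c h)

theorem s3_yv (k : Fin 2 × Option (Fin 3)) : d.s3 (d.yv f g i j k) = d.yv f g i j k := by
  rcases k with ⟨c, _ | e⟩
  · exact (s3_effect (d := d)).2.1 c
  · simp only [yv, map_sum, map_mul, map_pow, (s3_effect (d := d)).2.2, βsucc]
    exact Equiv.sum_comp (Equiv.addRight (1 : Fin 3))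
      (fun b : Fin 3 => algebraMap L Ω (d.β b) ^ (e : ℕ) * d.zz f g i j (c, some b))

theorem core (d : CoreData l L Ω) (hl3 : l ≤ 3) (θ : Ω ≃ₐ[L] Ω)
    (hθ : ∀ a b, θ (d.u a b) = (d.u a b)⁻¹) :
    ∃ t : Fin (4 * l) → Ω, AlgebraicIndependent L t ∧ (∀ k, d.s2 (t k) = t k) ∧
      (∀ k, d.s3 (t k) = t k) ∧ (∀ k, d.sq (t k) = t k) ∧ (∀ k, θ (t k) = t k) ∧
      ∀ y, θ y = y → y ∈ IntermediateField.adjoin L (Set.range t) := by
  classical
  have hl1 := d.hl
  obtain ⟨W, hW⟩ := exists_vandermonde_inverse d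
  obtain ⟨f, g, hp⟩ := d.exists_isPair
  obtain ⟨i, j, hi, hj, hD⟩ := hp.exists_minor
  have hij : i ≠ j := by
    rintro rfl
    exact hD (sub_self _)
  -- effects of the automorphisms
  have hswap : ∀ η : Ω ≃+* Ω, (∀ a, η (d.pt a) = d.pt a) → (∀ a b, η (d.u a b) = (d.u a b)⁻¹) →
      ∃ c : Fin 3 → Ω, (∀ b, c b ≠ 0) ∧
      (∀ b : Fin 3, (d.sh b f).map (η : Ω →+* Ω) = C (c b) * d.sh b g) ∧
      (∀ b : Fin 3, (d.sh b g).map (η : Ω →+* Ω) = C (c b) * d.sh b f) := by
    intro η h1 h2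
    have h3 := fun b : Fin 3 => hp.swap η h1 b (fun a => h2 a b)
    choose c hc0 hc1 hc2 using h3
    exact ⟨c, hc0, hc1, hc2⟩
  -- first part of the basis
  let H := {h : Fin (l + 1) // (h : ℕ) ≠ i ∧ (h : ℕ) ≠ j}
  have hHcard : Fintype.card H = l - 1 := by
    have h1 : Fintype.card H = (Finset.univ.filter
        (fun h : Fin (l + 1) => (h : ℕ) ≠ i ∧ (h : ℕ) ≠ j)).card := Fintype.card_subtype _
    have h2 : (Finset.univ.filter (fun h : Fin (l + 1) => (h : ℕ) ≠ i ∧ (h : ℕ) ≠ j)) =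
        (Finset.univ.erase (⟨i, by omega⟩ : Fin (l + 1))).erase ⟨j, by omega⟩ := by
      ext h
      simp only [Finset.mem_filter, Finset.mem_univ, true_and, Finset.mem_erase, Fin.ext_iff, ne_eq]
      tauto
    rw [h1, h2, Finset.card_erase_of_mem, Finset.card_erase_of_mem (Finset.mem_univ _),
      Finset.card_univ, Fintype.card_fin]
    · omega
    · simp only [Finset.mem_erase, Finset.mem_univ, and_true, Fin.ext_iff, ne_eq]
      exact fun h => hij h.symm
  let t1 : H × Fin 2 × Fin 3 → Ω := fun p => d.tr1 f g i j p.1.1 p.2.1 p.2.2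
  set E1 := IntermediateField.adjoin L (Set.range t1) with hE1
  have hE1mem : ∀ h ≤ l, h ≠ i → h ≠ j → ∀ c e, d.tr1 f g i j h c e ∈ E1 := by
    intro h hh h1 h2 c e
    apply IntermediateField.subset_adjoin
    exact ⟨(⟨⟨h, by omega⟩, h1, h2⟩, c, e), rfl⟩
  obtain ⟨J, hJcard, Cf, hCf, hsel⟩ := select E1
    (fun a : Fin (2 * l + 1) => d.TT f g i j W a)
    (fun a k => TT_mem hD hW E1 hE1mem a k) (TT_linearIndependent hW hl3 hp hD)
  have hcard8 : Fintype.card (Fin 2 × Option (Fin 3)) = 8 := by decide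
  rw [hcard8] at hJcard
  have hyrel := hsel (d.yv f g i j) (fun a => TT_relation hW hp hD a a.2)
  obtain ⟨j1, hj1J, hj1⟩ : ∃ j1 ∈ J, d.yv f g i j j1 ≠ 0 := by
    obtain ⟨k, hk⟩ := exists_yv_ne hW hD
    by_contra hcon
    push Not at hcon
    apply hk
    rw [hyrel k]
    exact Finset.sum_eq_zero fun j' hj' => by rw [hcon j' hj', mul_zero]
  set y := d.yv f g i j j1 with hy
  let t2 : {k // k ∈ J.erase j1} → Ω := fun k => d.yv f g i j k.1 / y
  let t : (H × Fin 2 × Fin 3) ⊕ {k // k ∈ J.erase j1} → Ω := Sum.elim t1 t2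
  have htcard : Fintype.card ((H × Fin 2 × Fin 3) ⊕ {k // k ∈ J.erase j1}) = 4 * l := by
    rw [Fintype.card_sum, Fintype.card_prod, Fintype.card_prod, hHcard, Fintype.card_fin,
      Fintype.card_fin, Fintype.card_coe, Finset.card_erase_of_mem hj1J]
    omega
  set E := IntermediateField.adjoin L (Set.range t) with hE
  have ht1E : ∀ p, t1 p ∈ E := fun p => IntermediateField.subset_adjoin _ _ ⟨Sum.inl p, rfl⟩
  have ht2E : ∀ p, t2 p ∈ E := fun p => IntermediateField.subset_adjoin _ _ ⟨Sum.inr p, rfl⟩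
  have hE1E : E1 ≤ E := by
    rw [hE1, IntermediateField.adjoin_le_iff]
    rintro _ ⟨p, rfl⟩
    exact ht1E p
  have hyE : ∀ k, d.yv f g i j k / y ∈ E := by
    intro k
    rw [hyrel k, Finset.sum_div]
    refine sum_mem fun j' hj' => ?_
    rw [mul_div_assoc]
    refine mul_mem (hE1E (hCf _ _)) ?_
    by_cases hjj : j' = j1
    · rw [hjj, ← hy, div_self hj1]; exact one_mem _
    · exact ht2E ⟨j', Finset.mem_erase.2 ⟨hjj, hj'⟩⟩
  have hzE : ∀ k, (ten (d.cc f i j) k - ten (d.cc g i j) k) / y ∈ E := by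
    rintro ⟨c, _ | b⟩
    · exact hyE (c, none)
    · change d.zz f g i j (c, some b) / y ∈ E
      rw [zz_some hW, Finset.sum_div]
      refine sum_mem fun e _ => ?_
      rw [mul_div_assoc]
      exact mul_mem (IntermediateField.algebraMap_mem _ _) (hyE _)
  -- the quadratic generator
  set F := d.cc f i j with hF
  set G := d.cc g i j with hG
  set μ := F 0 0 * G 0 1 * cominor F G 0 / y ^ 2 with hμ
  set μ' := F 0 1 * G 0 0 * cominor F G 0 / y ^ 2 with hμ'
  let S' : IntermediateField L Ω := (IntermediateField.adjoin E {μ}).restrictScalars L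
  have hES' : E ≤ S' := by
    intro e he
    exact IntermediateField.algebraMap_mem (IntermediateField.adjoin E {μ}) (⟨e, he⟩ : E)
  have hμS' : μ ∈ S' := IntermediateField.mem_adjoin_simple_self E μ
  obtain ⟨hsum, hprod, hall⟩ := recover E S' hES' F G y hj1 hzE hμS'
  have htop : S' = ⊤ := by
    apply d.eq_top_of_u_mem
    intro a ha b hb
    have := u_mem hp hD S' (fun a b c => hES' (hE1E (PE_mem hD hW E1 hE1mem a b c))) y hj1
      hall a (by omega) (⟨b, by omega⟩ : Fin 3)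
    exact this
  have hgen : IntermediateField.adjoin E {μ} = ⊤ := by
    rw [eq_top_iff]
    intro x _
    have : x ∈ S' := by rw [htop]; trivial
    exact this
  have hne : μ ≠ μ' := by
    intro h
    have h1 : μ - μ' = minor F G 0 * cominor F G 0 / y ^ 2 := by
      rw [hμ, hμ']; simp only [minor]; ring
    rw [h, sub_self] at h1
    exact (div_ne_zero (mul_ne_zero (minor_ne hD 0) (cominor_ne hD 0)) (pow_ne_zero 2 hj1))
      h1.symm
  -- the effect of the inversion
  obtain ⟨c, hc0, hc1, hc2⟩ := hswap (θ : Ω ≃+* Ω) (fun a => θ.commutes _) hθ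
  obtain ⟨hθF, hθG, hθP, hθz⟩ := swap_effect hD (θ : Ω ≃+* Ω) c hc0 hc1 hc2
  have hθβ : ∀ b, (θ : Ω ≃+* Ω) (algebraMap L Ω (d.β b)) = algebraMap L Ω (d.β b) :=
    fun b => θ.commutes _
  have hfixgen : ∀ (η : Ω ≃+* Ω) (K : Ω), K ≠ 0 →
      (∀ b, η (algebraMap L Ω (d.β b)) = algebraMap L Ω (d.β b)) →
      (∀ b m h, η (d.PP f g i j b m h) = d.PP f g i j b m h) →
      (∀ k, η (d.zz f g i j k) = K * d.zz f g i j k) → ∀ p, η (t p) = t p := by
    intro η K hK h1 h2 h3 p
    rcases p with p | p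
    · exact tr1_fixed h1 h2 _ _ _
    · change η (d.yv f g i j p.1 / y) = d.yv f g i j p.1 / y
      rw [map_div₀, hy, yv_scale h1 K h3, yv_scale h1 K h3, mul_div_mul_left _ _ hK]
  have hcprod : -(c 0 * c 1 * c 2) ≠ 0 := neg_ne_zero.2 (mul_ne_zero (mul_ne_zero (hc0 0) (hc0 1)) (hc0 2))
  have hθt : ∀ p, θ (t p) = t p := hfixgen (θ : Ω ≃+* Ω) _ hcprod hθβ hθP hθz
  have hs2t : ∀ p, d.s2 (t p) = t p := by
    obtain ⟨c', hc0', hc1', hc2'⟩ := hswap d.s2 (fun a => d.s2α a) (fun a b => d.s2_u a b)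
    obtain ⟨_, _, h3, h4⟩ := swap_effect hD d.s2 c' hc0' hc1' hc2'
    exact hfixgen d.s2 _ (neg_ne_zero.2 (mul_ne_zero (mul_ne_zero (hc0' 0) (hc0' 1)) (hc0' 2)))
      d.s2β h3 h4
  have hsqt : ∀ p, d.sq (t p) = t p := by
    have h3 := fun b : Fin 3 => hp.shiftq b
    choose c' hc0' hc1' hc2' using h3
    obtain ⟨h3, h4⟩ := scale_effect hD d.sq c' (fun b => d.u 1 b) (d.u_three 1) hc1' hc2'
    exact hfixgen d.sq _ (mul_ne_zero (mul_ne_zero (hc0' 0) (hc0' 1)) (hc0' 2)) d.sqβ h3 h4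
  have hs3t : ∀ p, d.s3 (t p) = t p := by
    intro p
    rcases p with p | p
    · exact s3_tr1 _ _ _
    · change d.s3 (d.yv f g i j p.1 / y) = d.yv f g i j p.1 / y
      rw [map_div₀, hy, s3_yv, s3_yv]
  have hθE : ∀ e ∈ E, θ e = e := by
    intro e he
    induction he using IntermediateField.adjoin_induction with
    | mem x hx => obtain ⟨p, rfl⟩ := hx; exact hθt p
    | algebraMap x => exact θ.commutes x
    | add x y _ _ hx hy => rw [map_add, hx, hy]
    | inv x _ hx => rw [map_inv₀, hx]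
    | mul x y _ _ hx hy => rw [map_mul, hx, hy]
  have hθμ : θ μ = μ' := by
    have hy2 : θ y = -(c 0 * c 1 * c 2) * y := yv_scale (θ := (θ : Ω ≃+* Ω)) hθβ _ hθz j1
    have e1 : ∀ b m, θ (F b m) = c b * G b m := hθF
    have e2 : ∀ b m, θ (G b m) = c b * F b m := hθG
    have e3 : θ (cominor F G 0) = (c 1 ^ 2 * c 2 ^ 2) * cominor F G 0 := by
      simp only [cominor, minor, map_mul, map_sub, e1, e2]
      ring
    rw [hμ, hμ', map_div₀, map_mul, map_mul, map_pow, e1, e2, e3, hy2]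
    have h0 := hc0 0
    have h1 := hc0 1
    have h2 := hc0 2
    field_simp
  have hfinal : ∀ y, θ y = y → y ∈ E := fun y hy =>
    mem_of_fixed_quadratic E μ μ' hsum hprod hne hgen θ hθE hθμ y hy
  have halg : Algebra.IsAlgebraic E Ω := by
    have hint : IsIntegral E μ := by
      refine ⟨Polynomial.X ^ 2 - Polynomial.C ⟨μ + μ', hsum⟩ * Polynomial.X +
        Polynomial.C ⟨μ * μ', hprod⟩, by monicity!, ?_⟩
      simp only [eval₂_add, eval₂_sub, eval₂_mul, eval₂_pow, eval₂_X, eval₂_C,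
        IntermediateField.algebraMap_apply]
      ring
    have h1 := IntermediateField.isAlgebraic_adjoin_simple hint
    constructor
    intro x
    have hx : x ∈ IntermediateField.adjoin E {μ} := by rw [hgen]; trivial
    have h2 := h1.isAlgebraic (⟨x, hx⟩ : IntermediateField.adjoin E {μ})
    exact h2.algebraMap (A := Ω)
  have hind : AlgebraicIndependent L t := by
    apply algInd_of_algebraic t halg
    rw [Nat.card_eq_fintype_card, htcard, ← d.tr]
  let e := (Fintype.equivFinOfCardEq htcard).symm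
  refine ⟨t ∘ e, hind.comp e e.injective, fun k => hs2t _, fun k => hs3t _, fun k => hsqt _,
    fun k => hθt _, fun y hy => ?_⟩
  rw [Set.range_comp, e.surjective.range_eq, Set.image_univ]
  exact hfinal y hy

end CoreData

end Pool.Agent.Helper68
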