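import Pool.Agent.Helper68.Core

/-! The fixed field of the inversion is purely transcendental (split form, with symmetries). -/

namespace Pool.Agent.Helper68

open Polynomial Finset

namespace CoreData

variable {l : ℕ} {L Ω : Type*} [Field L] [Field Ω] [Algebra L Ω] {d : CoreData l L Ω}
  {f g : Polynomial Ω} {i j : ℕ}

/-- the relations in semi-invariant coordinates. -/
noncomputable def TT (d : CoreData l L Ω) (f g : Polynomial Ω) (i j : ℕ)
    (W : Matrix (Fin 3) (Fin 3) L) (a : ℕ) : Fin 2 × Option (Fin 3) → Ω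
  | (c, none) => ten (d.PE f g i j a) (c, none)
  | (c, some e) => ∑ b : Fin 3, ten (d.PE f g i j a) (c, some b) * algebraMap L Ω (W b e)

theorem TT_relation {W : Matrix (Fin 3) (Fin 3) L}
    (hW : ∀ b b' : Fin 3, ∑ e : Fin 3, W b e * d.β b' ^ (e : ℕ) = if b = b' then 1 else 0)
    (hp : d.IsPair f g) (hD : f.coeff i * g.coeff j - f.coeff j * g.coeff i ≠ 0) (a : ℕ)
    (ha : a < 2 * l + 1) : ∑ k, d.TT f g i j W a k * d.yv f g i j k = 0 := by
  rw [← relation hp hD a ha]
  simp only [Fintype.sum_prod_type, Fintype.sum_option]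
  refine sum_congr rfl fun c _ => ?_
  congr 1
  simp only [TT, zz_some hW, sum_mul, mul_sum]
  rw [sum_comm]
  refine sum_congr rfl fun b _ => sum_congr rfl fun e _ => by ring

theorem TT_linearIndependent {W : Matrix (Fin 3) (Fin 3) L}
    (hW : ∀ b b' : Fin 3, ∑ e : Fin 3, W b e * d.β b' ^ (e : ℕ) = if b = b' then 1 else 0)
    (hl3 : l ≤ 3) (hp : d.IsPair f g)
    (hD : f.coeff i * g.coeff j - f.coeff j * g.coeff i ≠ 0) :
    LinearIndependent Ω (fun a : Fin (2 * l + 1) => d.TT f g i j W a) := by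
  have hT := linearIndependent_T (d := d) hl3 hp hD
  let φ : (Fin 2 × Option (Fin 3) → Ω) →ₗ[Ω] (Fin 2 × Option (Fin 3) → Ω) :=
    { toFun := fun r k => match k with
        | (c, none) => r (c, none)
        | (c, some b) => ∑ e : Fin 3, r (c, some e) * algebraMap L Ω (d.β b) ^ (e : ℕ)
      map_add' := by
        intro r r'
        funext k
        rcases k with ⟨c, _ | b⟩
        · rfl
        · simp only [Pi.add_apply, add_mul, sum_add_distrib]
      map_smul' := by
        intro m r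
        funext k
        rcases k with ⟨c, _ | b⟩
        · rfl
        · simp only [Pi.smul_apply, smul_eq_mul, RingHom.id_apply, mul_sum, mul_assoc] }
  have h1 : (fun a : Fin (2 * l + 1) => ten (d.PE f g i j a)) =
      φ ∘ (fun a : Fin (2 * l + 1) => d.TT f g i j W a) := by
    funext a k
    rcases k with ⟨c, _ | b⟩
    · rfl
    · change ten (d.PE f g i j a) (c, some b) = ∑ e : Fin 3,
        (∑ b' : Fin 3, ten (d.PE f g i j a) (c, some b') * algebraMap L Ω (W b' e)) *
          algebraMap L Ω (d.β b) ^ (e : ℕ)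
      have h2 : ∀ b' : Fin 3, ∑ e : Fin 3, algebraMap L Ω (W b' e) *
          algebraMap L Ω (d.β b) ^ (e : ℕ) = if b' = b then 1 else 0 := by
        intro b'
        have := congrArg (algebraMap L Ω) (hW b' b)
        simp only [map_sum, map_mul, map_pow] at this
        rw [this]
        split_ifs <;> simp
      calc ten (d.PE f g i j a) (c, some b)
          = ∑ b' : Fin 3, ten (d.PE f g i j a) (c, some b') * (if b' = b then 1 else 0) := by
            simp
        _ = ∑ b' : Fin 3, ten (d.PE f g i j a) (c, some b') *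
            ∑ e : Fin 3, algebraMap L Ω (W b' e) * algebraMap L Ω (d.β b) ^ (e : ℕ) := by
            simp only [h2]
        _ = _ := by
            simp only [sum_mul, mul_sum]
            rw [sum_comm]
            refine sum_congr rfl fun e _ => sum_congr rfl fun b' _ => by ring
  rw [h1] at hT
  exact LinearIndependent.of_comp φ hT

theorem PP_mem (hD : f.coeff i * g.coeff j - f.coeff j * g.coeff i ≠ 0)
    {W : Matrix (Fin 3) (Fin 3) L}
    (hW : ∀ b b' : Fin 3, ∑ e : Fin 3, W b e * d.β b' ^ (e : ℕ) = if b = b' then 1 else 0)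
    (S : IntermediateField L Ω)
    (hS : ∀ h ≤ l, h ≠ i → h ≠ j → ∀ c e, d.tr1 f g i j h c e ∈ S) (b : Fin 3) (c : Fin 2)
    (h : ℕ) (hh : h ≤ l) : d.PP f g i j b c h ∈ S := by
  by_cases hi : h = i
  · subst hi
    fin_cases c
    · change d.PP f g h j b 0 h ∈ S
      rw [PP_zero_i hD]; exact one_mem _
    · change d.PP f g h j b 1 h ∈ S
      rw [PP_one_i]; exact zero_mem _
  · by_cases hj : h = j
    · subst hj
      fin_cases c
      · change d.PP f g i h b 0 h ∈ S
        rw [PP_zero_j]; exact zero_mem _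
      · change d.PP f g i h b 1 h ∈ S
        rw [PP_one_j hD]; exact one_mem _
    · have := invert (d := d) hW (fun b => d.PP f g i j b c h) b
      rw [this]
      exact sum_mem fun e _ => mul_mem (IntermediateField.algebraMap_mem _ _)
        (hS h hh hi hj c e)

theorem ten_mem {S : IntermediateField L Ω} {A : Fin 3 → Fin 2 → Ω} (hA : ∀ b m, A b m ∈ S)
    (k : Fin 2 × Option (Fin 3)) : ten A k ∈ S := by
  rcases k with ⟨c, _ | b⟩
  · exact mul_mem (mul_mem (hA _ _) (hA _ _)) (hA _ _)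
  · exact mul_mem (mul_mem (hA _ _) (hA _ _)) (hA _ _)

theorem PE_mem (hD : f.coeff i * g.coeff j - f.coeff j * g.coeff i ≠ 0)
    {W : Matrix (Fin 3) (Fin 3) L}
    (hW : ∀ b b' : Fin 3, ∑ e : Fin 3, W b e * d.β b' ^ (e : ℕ) = if b = b' then 1 else 0)
    (S : IntermediateField L Ω)
    (hS : ∀ h ≤ l, h ≠ i → h ≠ j → ∀ c e, d.tr1 f g i j h c e ∈ S) (a : ℕ) (b : Fin 3)
    (c : Fin 2) : d.PE f g i j a b c ∈ S := by
  simp only [PE]
  refine sum_mem fun h hh => mul_mem (PP_mem hD hW S hS b c h ?_)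
    (pow_mem (IntermediateField.algebraMap_mem _ _) _)
  have := mem_range.1 hh
  omega

theorem TT_mem (hD : f.coeff i * g.coeff j - f.coeff j * g.coeff i ≠ 0)
    {W : Matrix (Fin 3) (Fin 3) L}
    (hW : ∀ b b' : Fin 3, ∑ e : Fin 3, W b e * d.β b' ^ (e : ℕ) = if b = b' then 1 else 0)
    (S : IntermediateField L Ω)
    (hS : ∀ h ≤ l, h ≠ i → h ≠ j → ∀ c e, d.tr1 f g i j h c e ∈ S) (a : ℕ)
    (k : Fin 2 × Option (Fin 3)) : d.TT f g i j W a k ∈ S := by
  rcases k with ⟨c, _ | b⟩
  · change ten (d.PE f g i j a) (c, none) ∈ S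
    exact ten_mem (fun b m => PE_mem hD hW S hS a b m) _
  · exact sum_mem fun b _ => mul_mem (ten_mem (fun b m => PE_mem hD hW S hS a b m) _)
      (IntermediateField.algebraMap_mem _ _)

/-- recovering the `u a b` from the tensor. -/
theorem u_mem (hp : d.IsPair f g)
    (hD : f.coeff i * g.coeff j - f.coeff j * g.coeff i ≠ 0) (S : IntermediateField L Ω)
    (hPE : ∀ a b c, d.PE f g i j a b c ∈ S) (y : Ω) (hy : y ≠ 0)
    (hS : ∀ (b : Fin 3) (m n : Fin 2), d.cc f i j b m * d.cc g i j b n *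
      cominor (d.cc f i j) (d.cc g i j) b / y ^ 2 ∈ S) (a : ℕ) (ha : a < 2 * l + 1)
    (b : Fin 3) : d.u a b ∈ S := by
  have hl := d.hl
  have hG : (d.sh b g).eval (d.pt a) ≠ 0 := hp.g_ne b a ha
  have hF0 : (d.sh b f).eval (d.pt 0) ≠ 0 := hp.f_ne b 0 (by omega)
  have hκ : cominor (d.cc f i j) (d.cc g i j) b / y ^ 2 ≠ 0 :=
    div_ne_zero (cominor_ne hD b) (pow_ne_zero 2 hy)
  have hf0 : (d.sh b f).eval (d.pt 0) = (d.sh b g).eval (d.pt 0) := by
    rw [(hp.interp' b).ev 0 (by omega), u_zero, one_mul]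
  have hu : d.u a b = ((d.sh b f).eval (d.pt a) * (d.sh b g).eval (d.pt 0) *
      (cominor (d.cc f i j) (d.cc g i j) b / y ^ 2)) /
      ((d.sh b g).eval (d.pt a) * (d.sh b f).eval (d.pt 0) *
      (cominor (d.cc f i j) (d.cc g i j) b / y ^ 2)) := by
    rw [eq_div_iff (mul_ne_zero (mul_ne_zero hG hF0) hκ), (hp.interp' b).ev a ha, hf0]
    ring
  have hnum : ∀ a a', (d.sh b f).eval (d.pt a) * (d.sh b g).eval (d.pt a') *
      (cominor (d.cc f i j) (d.cc g i j) b / y ^ 2) ∈ S := by
    intro a a'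
    rw [eval_f_eq hp hD, eval_g_eq hp hD]
    have h1 : (d.cc f i j b 0 * d.PE f g i j a b 0 + d.cc f i j b 1 * d.PE f g i j a b 1) *
        (d.cc g i j b 0 * d.PE f g i j a' b 0 + d.cc g i j b 1 * d.PE f g i j a' b 1) *
        (cominor (d.cc f i j) (d.cc g i j) b / y ^ 2) =
        d.cc f i j b 0 * d.cc g i j b 0 * cominor (d.cc f i j) (d.cc g i j) b / y ^ 2 *
          (d.PE f g i j a b 0 * d.PE f g i j a' b 0) +
        d.cc f i j b 0 * d.cc g i j b 1 * cominor (d.cc f i j) (d.cc g i j) b / y ^ 2 *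
          (d.PE f g i j a b 0 * d.PE f g i j a' b 1) +
        d.cc f i j b 1 * d.cc g i j b 0 * cominor (d.cc f i j) (d.cc g i j) b / y ^ 2 *
          (d.PE f g i j a b 1 * d.PE f g i j a' b 0) +
        d.cc f i j b 1 * d.cc g i j b 1 * cominor (d.cc f i j) (d.cc g i j) b / y ^ 2 *
          (d.PE f g i j a b 1 * d.PE f g i j a' b 1) := by ring
    rw [h1]
    exact add_mem (add_mem (add_mem
      (mul_mem (hS b 0 0) (mul_mem (hPE _ _ _) (hPE _ _ _)))
      (mul_mem (hS b 0 1) (mul_mem (hPE _ _ _) (hPE _ _ _))))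
      (mul_mem (hS b 1 0) (mul_mem (hPE _ _ _) (hPE _ _ _))))
      (mul_mem (hS b 1 1) (mul_mem (hPE _ _ _) (hPE _ _ _)))
  rw [hu]
  refine div_mem (hnum a 0) ?_
  have h2 := hnum 0 a
  rwa [mul_comm ((d.sh b f).eval (d.pt 0))] at h2

end CoreData

end Pool.Agent.Helper68
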