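import Pool.Agent.Helper68.Final
import Pool.Agent.Helper68.Descent
import Pool.Agent.Helper68.Indep

/-! From a generic point of the torus to the split form. -/

namespace Pool.Agent.Helper68

open Finset IntermediateField

/-- `Ω` with the semilinear action `ρ` of `Gal(L/k)` and `x : Ω` is the function field of the
torus `T_{L/k}` over `L`, with its Galois action and its universal point. -/
structure IsGenericPoint (k : Type*) {L Ω : Type*} [Field k] [Field L] [Field Ω] [Algebra k L]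
    [Algebra k Ω] [Algebra L Ω] (ρ : (L ≃ₐ[k] L) →* (Ω ≃ₐ[k] Ω)) (x : Ω) : Prop where
  semilinear : ∀ τ c, ρ τ (algebraMap L Ω c) = algebraMap L Ω (τ c)
  ne_zero : x ≠ 0
  norm_one : ∀ M : IntermediateField k L, M ≠ ⊤ → ∏ᶠ τ : M.fixingSubgroup, ρ τ x = 1
  generates : IntermediateField.adjoin L (Set.range fun τ : L ≃ₐ[k] L => ρ τ x) = ⊤
  trdeg_eq : Algebra.trdeg L Ω = Nat.totient (Module.finrank k L)

section galois

variable {k L : Type*} [Field k] [Field L] [Algebra k L] [FiniteDimensional k L] [IsGalois k L]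

omit [IsGalois k L] in
/-- the orbit of an element moved by `τ` of prime order. -/
theorem exists_orbit (τ : L ≃ₐ[k] L) (q : ℕ) (hq : q.Prime) (ho : orderOf τ = q)
    (H : Subgroup (L ≃ₐ[k] L)) (hτ : τ ∉ H) :
    ∃ a0 : L, (∀ h ∈ H, h a0 = a0) ∧
      ∀ a < q, ∀ b < q, (τ ^ a) a0 = (τ ^ b) a0 → a = b := by
  have h1 : τ ∉ fixingSubgroup (fixedField H) := by rwa [fixingSubgroup_fixedField]
  have h2 : ∃ a0 : fixedField H, τ a0 ≠ a0 := by
    by_contra hcon
    push Not at hcon
    apply h1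
    rw [IntermediateField.mem_fixingSubgroup_iff]
    intro y hy
    exact hcon ⟨y, hy⟩
  obtain ⟨⟨a0, ha0⟩, hne⟩ := h2
  refine ⟨a0, fun h hh => ha0 ⟨h, hh⟩, ?_⟩
  have key : ∀ d, 0 < d → d < q → (τ ^ d) a0 ≠ a0 := by
    intro d hd0 hdq hd
    have hco : d.Coprime (orderOf τ) := by
      rw [ho]
      exact (Nat.coprime_of_lt_prime (by omega) hdq hq).symm
    obtain ⟨m, hm⟩ := exists_pow_eq_self_of_coprime hco
    have h3 : (τ ^ d) ∈ MulAction.stabilizer (L ≃ₐ[k] L) a0 := by
      rw [MulAction.mem_stabilizer_iff]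
      exact hd
    have h4 : τ ∈ MulAction.stabilizer (L ≃ₐ[k] L) a0 := by
      rw [← hm]
      exact Subgroup.pow_mem _ h3 _
    exact hne (MulAction.mem_stabilizer_iff.1 h4)
  have key2 : ∀ a b, a < b → b < q → (τ ^ a) a0 ≠ (τ ^ b) a0 := by
    intro a b hab hbq h
    apply key (b - a) (by omega) (by omega)
    apply (τ ^ a).injective
    rw [h, ← AlgEquiv.mul_apply, ← pow_add, Nat.add_sub_cancel' hab.le]
  intro a ha b hb h
  rcases lt_trichotomy a b with h1 | h1 | h1
  · exact absurd h (key2 a b h1 hb)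
  · exact h1
  · exact absurd h.symm (key2 b a h1 ha)

end galois

section norm

variable {k L Ω : Type*} [Field k] [Field L] [Field Ω] [Algebra k L]
    [Algebra k Ω] [Algebra L Ω] [FiniteDimensional k L] [IsGalois k L]
    {ρ : (L ≃ₐ[k] L) →* (Ω ≃ₐ[k] Ω)} {x : Ω}

omit [IsGalois k L] in
theorem IsGenericPoint.prod_pow (h : IsGenericPoint k ρ x) (τ : L ≃ₐ[k] L) (hτ : τ ≠ 1) :
    ∏ i ∈ range (orderOf τ), (ρ τ ^ i) x = 1 := by
  have hM : fixedField (Subgroup.zpowers τ) ≠ ⊤ := by
    intro h1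
    have h2 : fixingSubgroup (fixedField (Subgroup.zpowers τ)) = ⊥ := by
      rw [h1, fixingSubgroup_top]
    rw [fixingSubgroup_fixedField, Subgroup.zpowers_eq_bot] at h2
    exact hτ h2
  have h1 := h.norm_one _ hM
  rw [fixingSubgroup_fixedField] at h1
  have hfin : IsOfFinOrder τ := isOfFinOrder_of_finite τ
  rw [← finprod_comp_equiv (finEquivZPowers hfin)] at h1
  simp only [finEquivZPowers_apply, map_pow] at h1
  rw [finprod_eq_prod_of_fintype] at h1
  rw [← Fin.prod_univ_eq_prod_range (fun i => (ρ τ ^ i) x) (orderOf τ)]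
  exact h1

end norm

section split

variable {k L Ω : Type*} [Field k] [Field L] [Field Ω] [Algebra k L]
    [Algebra k Ω] [Algebra L Ω] [FiniteDimensional k L] [IsGalois k L]
    {ρ : (L ≃ₐ[k] L) →* (Ω ≃ₐ[k] Ω)} {x : Ω}

omit [Algebra L Ω] [FiniteDimensional k L] [IsGalois k L] [Field L] [Algebra k L] in
theorem iter_pow (s : Ω ≃ₐ[k] Ω) (n : ℕ) (y : Ω) : (s.toRingEquiv)^[n] y = (s ^ n) y := by
  induction n generalizing y with
  | zero => rfl
  | succ n ih =>
    rw [Function.iterate_succ_apply, ih, pow_succ, AlgEquiv.mul_apply]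
    rfl

/-- The decomposition of the cyclic group used below. -/
structure Split (k L : Type*) [Field k] [Field L] [Algebra k L] (l : ℕ) where
  τ2 : L ≃ₐ[k] L
  τ3 : L ≃ₐ[k] L
  τq : L ≃ₐ[k] L
  o2 : orderOf τ2 = 2
  o3 : orderOf τ3 = 3
  oq : orderOf τq = 2 * l + 1
  c : ∀ g h : L ≃ₐ[k] L, g * h = h * g
  gen : ∀ g : L ≃ₐ[k] L, ∃ m : ℕ, g = τ2 ^ m * τ3 ^ m * τq ^ m

theorem exists_coreData (l : ℕ) (S : Split k L l) (hq : (2 * l + 1).Prime) (hl : 2 ≤ l)
    (h : IsGenericPoint k ρ x)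
    (htr : ((4 * l : ℕ) : Cardinal) = Algebra.trdeg L Ω) :
    ∃ d : CoreData l L Ω, d.x = x ∧ (∀ y, d.s2 y = ρ S.τ2 y) ∧ (∀ y, d.s3 y = ρ S.τ3 y) ∧
      (∀ y, d.sq y = ρ S.τq y) := by
  have n2 : S.τ2 ≠ 1 := by
    intro h1; have := S.o2; rw [h1, orderOf_one] at this; omega
  have n3 : S.τ3 ≠ 1 := by
    intro h1; have := S.o3; rw [h1, orderOf_one] at this; omega
  have nq : S.τq ≠ 1 := by
    intro h1; have := S.oq; rw [h1, orderOf_one] at this; omega
  have p2 : S.τ2 ^ 2 = 1 := by rw [← S.o2]; exact pow_orderOf_eq_one _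
  have p3 : S.τ3 ^ 3 = 1 := by rw [← S.o3]; exact pow_orderOf_eq_one _
  have pq : S.τq ^ (2 * l + 1) = 1 := by rw [← S.oq]; exact pow_orderOf_eq_one _
  -- the fixed fields
  have hc : ∀ g h : L ≃ₐ[k] L, Commute g h := S.c
  have mq : S.τq ∉ Subgroup.zpowers (S.τ2 * S.τ3) := by
    intro hm
    obtain ⟨m, hm⟩ := Subgroup.mem_zpowers_iff.1 hm
    have h1 : S.τq ^ 6 = 1 := by
      rw [← hm, ← zpow_natCast, ← zpow_mul, mul_comm, zpow_mul, zpow_natCast,
        (hc S.τ2 S.τ3).mul_pow, show (6 : ℕ) = 2 * 3 by rfl, pow_mul, p2, mul_comm 2 3, pow_mul, p3]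
      simp
    have h2 := orderOf_dvd_of_pow_eq_one h1
    rw [S.oq] at h2
    have h3 : 2 * l + 1 ∣ 2 * 3 := h2
    rcases (Nat.Prime.dvd_mul hq).1 h3 with h4 | h4
    · have := Nat.le_of_dvd (by norm_num) h4; omega
    · have := Nat.le_of_dvd (by norm_num) h4; omega
  have m3 : S.τ3 ∉ Subgroup.zpowers (S.τ2 * S.τq) := by
    intro hm
    obtain ⟨m, hm⟩ := Subgroup.mem_zpowers_iff.1 hm
    have h1 : S.τ3 ^ (2 * (2 * l + 1)) = 1 := by
      rw [← hm, ← zpow_natCast, ← zpow_mul, mul_comm, zpow_mul, zpow_natCast,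
        (hc S.τ2 S.τq).mul_pow, pow_mul, p2, mul_comm 2 (2 * l + 1), pow_mul, pq]
      simp
    have h2 := orderOf_dvd_of_pow_eq_one h1
    rw [S.o3] at h2
    rcases (Nat.Prime.dvd_mul Nat.prime_three).1 h2 with h4 | h4
    · have := Nat.le_of_dvd (by norm_num) h4; omega
    · have := (Nat.prime_dvd_prime_iff_eq Nat.prime_three hq).1 h4; omega
  obtain ⟨α0, hα0, hα1⟩ := exists_orbit S.τq (2 * l + 1) hq S.oq _ mq
  obtain ⟨β0, hβ0, hβ1⟩ := exists_orbit S.τ3 3 Nat.prime_three S.o3 _ m3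
  -- the elements of order two and three are powers of their product
  have q2 : S.τ2 ∈ Subgroup.zpowers (S.τ2 * S.τ3) := by
    refine ⟨3, ?_⟩
    change (S.τ2 * S.τ3) ^ (3 : ℤ) = S.τ2
    rw [show (3 : ℤ) = ((3 : ℕ) : ℤ) by rfl, zpow_natCast, (hc S.τ2 S.τ3).mul_pow, p3, mul_one,
      pow_succ, p2, one_mul]
  have q3 : S.τ3 ∈ Subgroup.zpowers (S.τ2 * S.τ3) := by
    have := Subgroup.mem_zpowers (S.τ2 * S.τ3)
    have h1 := (Subgroup.mul_mem_cancel_left _ q2).1 this
    exact h1
  have r2 : S.τ2 ∈ Subgroup.zpowers (S.τ2 * S.τq) := by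
    refine ⟨((2 * l + 1 : ℕ) : ℤ), ?_⟩
    change (S.τ2 * S.τq) ^ (((2 * l + 1 : ℕ) : ℤ)) = S.τ2
    rw [zpow_natCast, (hc S.τ2 S.τq).mul_pow, pq, mul_one, pow_succ, pow_mul, p2, one_pow, one_mul]
  have rq : S.τq ∈ Subgroup.zpowers (S.τ2 * S.τq) := by
    have := Subgroup.mem_zpowers (S.τ2 * S.τq)
    exact (Subgroup.mul_mem_cancel_left _ r2).1 this
  have hcomm : ∀ (g h : L ≃ₐ[k] L) (y : Ω), ρ g (ρ h y) = ρ h (ρ g y) := by
    intro g h y
    rw [← AlgEquiv.mul_apply, ← AlgEquiv.mul_apply, ← map_mul, ← map_mul, S.c]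
  have hpc : ∀ (g h : L ≃ₐ[k] L) (m : ℕ) (y : L), g ((h ^ m) y) = (h ^ m) (g y) := by
    intro g h m y
    rw [← AlgEquiv.mul_apply, ← AlgEquiv.mul_apply, S.c]
  let d : CoreData l L Ω :=
    { s2 := (ρ S.τ2).toRingEquiv
      s3 := (ρ S.τ3).toRingEquiv
      sq := (ρ S.τq).toRingEquiv
      α := fun a => (S.τq ^ a) α0
      β := fun b => (S.τ3 ^ b) β0
      x := x
      hl := by omega
      hα := hα1
      αp := by intro a; simp only [pow_add, pq, mul_one]
      hβ := hβ1
      βp := by intro b; simp only [pow_add, p3, mul_one]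
      s2α := by
        intro a
        change ρ S.τ2 _ = _
        rw [h.semilinear, hpc, hα0 _ q2]
      s3α := by
        intro a
        change ρ S.τ3 _ = _
        rw [h.semilinear, hpc, hα0 _ q3]
      sqα := by
        intro a
        change ρ S.τq _ = _
        rw [h.semilinear, ← AlgEquiv.mul_apply, ← pow_succ']
      s2β := by
        intro a
        change ρ S.τ2 _ = _
        rw [h.semilinear, hpc, hβ0 _ r2]
      sqβ := by
        intro a
        change ρ S.τq _ = _
        rw [h.semilinear, hpc, hβ0 _ rq]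
      s3β := by
        intro a
        change ρ S.τ3 _ = _
        rw [h.semilinear, ← AlgEquiv.mul_apply, ← pow_succ']
      c23 := hcomm _ _
      c2q := hcomm _ _
      c3q := hcomm _ _
      o3 := by
        intro y
        have := DFunLike.congr_fun (map_pow ρ S.τ3 3) y
        rw [p3, map_one] at this
        exact this.symm
      oq := by
        intro y
        rw [iter_pow, ← map_pow, pq, map_one]
        rfl
      x0 := h.ne_zero
      n2 := by
        have := h.prod_pow S.τ2 n2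
        rw [S.o2, Finset.prod_range_succ, Finset.prod_range_one] at this
        simpa using this
      n3 := by
        have := h.prod_pow S.τ3 n3
        rw [S.o3, Finset.prod_range_succ, Finset.prod_range_succ, Finset.prod_range_one] at this
        exact this
      nq := by
        have := h.prod_pow S.τq nq
        rw [S.oq] at this
        simp only [iter_pow]
        exact this
      gen := by
        rw [eq_top_iff, ← h.generates, IntermediateField.adjoin_le_iff]
        rintro _ ⟨g, rfl⟩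
        obtain ⟨m, rfl⟩ := S.gen g
        set A := IntermediateField.adjoin L
          (Set.range fun p : ℕ × ℕ => (ρ S.τq).toRingEquiv^[p.1] ((ρ S.τ3).toRingEquiv^[p.2] x))
          with hA
        have h1 : ρ (S.τ3 ^ m * S.τq ^ m) x ∈ A := by
          apply IntermediateField.subset_adjoin
          refine ⟨(m, m), ?_⟩
          simp only [iter_pow, S.c (S.τ3 ^ m), map_mul, map_pow, AlgEquiv.mul_apply]
        have h2 : ρ S.τ2 (ρ (S.τ3 ^ m * S.τq ^ m) x) = (ρ (S.τ3 ^ m * S.τq ^ m) x)⁻¹ := by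
          rw [hcomm, ← map_inv₀]
          congr 1
          have := h.prod_pow S.τ2 n2
          rw [S.o2, Finset.prod_range_succ, Finset.prod_range_one] at this
          apply eq_inv_of_mul_eq_one_left
          rw [mul_comm]
          simpa using this
        have h3 : ∀ j : ℕ, ρ (S.τ2 ^ j) (ρ (S.τ3 ^ m * S.τq ^ m) x) ∈ A := by
          intro j
          have h4 : ∀ j : ℕ, ρ (S.τ2 ^ j) (ρ (S.τ3 ^ m * S.τq ^ m) x) =
              ρ (S.τ3 ^ m * S.τq ^ m) x ∨ ρ (S.τ2 ^ j) (ρ (S.τ3 ^ m * S.τq ^ m) x) =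
              (ρ (S.τ3 ^ m * S.τq ^ m) x)⁻¹ := by
            intro j
            induction j with
            | zero => left; simp
            | succ j ih =>
              rw [pow_succ', map_mul, AlgEquiv.mul_apply]
              rcases ih with ih | ih
              · right; rw [ih, h2]
              · left; rw [ih, map_inv₀, h2, inv_inv]
          rcases h4 j with h5 | h5
          · rw [h5]; exact h1
          · rw [h5]; exact inv_mem h1
        have h4 := h3 m
        rw [← AlgEquiv.mul_apply, ← map_mul, ← mul_assoc] at h4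
        exact h4
      tr := htr }
  exact ⟨d, rfl, fun _ => rfl, fun _ => rfl, fun _ => rfl⟩

omit [Algebra L Ω] in
theorem fixed_of_gen {l : ℕ} (S : Split k L l) (y : Ω) (h2 : ρ S.τ2 y = y) (h3 : ρ S.τ3 y = y)
    (hq : ρ S.τq y = y) (g : L ≃ₐ[k] L) : ρ g y = y := by
  have hp : ∀ (τ : L ≃ₐ[k] L), ρ τ y = y → ∀ m : ℕ, ρ (τ ^ m) y = y := by
    intro τ hτ m
    induction m with
    | zero => simp
    | succ m ih => rw [pow_succ, map_mul, AlgEquiv.mul_apply, hτ, ih]
  obtain ⟨m, rfl⟩ := S.gen g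
  rw [map_mul, map_mul, AlgEquiv.mul_apply, AlgEquiv.mul_apply, hp _ hq, hp _ h3, hp _ h2]

/-- A splitting of the cyclic group of order `6 (2 l + 1)`. -/
theorem exists_split (n l e2 e3 eq : ℕ) [IsCyclic (L ≃ₐ[k] L)] (hn : Module.finrank k L = n)
    (h2 : n / n.gcd e2 = 2) (h3 : n / n.gcd e3 = 3) (hq : n / n.gcd eq = 2 * l + 1)
    (hs : (e2 + e3 + eq) % n = 1) : Nonempty (Split k L l) := by
  obtain ⟨σ, hσ⟩ := IsCyclic.exists_generator (α := L ≃ₐ[k] L)
  have hcard : orderOf σ = n := by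
    rw [orderOf_eq_card_of_forall_mem_zpowers hσ, IsGalois.card_aut_eq_finrank, hn]
  have hfin : IsOfFinOrder σ := isOfFinOrder_of_finite σ
  have hc : ∀ g h : L ≃ₐ[k] L, g * h = h * g := by
    intro g h
    obtain ⟨a, rfl⟩ := hσ g
    obtain ⟨b, rfl⟩ := hσ h
    change σ ^ a * σ ^ b = σ ^ b * σ ^ a
    rw [← zpow_add, ← zpow_add, add_comm]
  have hprod : σ ^ e2 * σ ^ e3 * σ ^ eq = σ := by
    rw [← pow_add, ← pow_add, ← pow_mod_orderOf, hcard, hs, pow_one]
  refine ⟨⟨σ ^ e2, σ ^ e3, σ ^ eq, ?_, ?_, ?_, hc, ?_⟩⟩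
  · rw [orderOf_pow, hcard, h2]
  · rw [orderOf_pow, hcard, h3]
  · rw [orderOf_pow, hcard, hq]
  · intro g
    obtain ⟨m, rfl⟩ := (hfin.mem_powers_iff_mem_zpowers.2 (hσ g))
    refine ⟨m, ?_⟩
    change σ ^ m = _
    have hcc : ∀ g h : L ≃ₐ[k] L, Commute g h := hc
    rw [← (hcc _ _).mul_pow, ← (hcc _ _).mul_pow, hprod]

variable [IsScalarTower k L Ω]

/-- A generic point moved by the inversion: the inversion is not trivial on the Galois
invariants. -/
theorem IsGenericPoint.exists_moved (h : IsGenericPoint k ρ x) (ι : Ω ≃ₐ[L] Ω)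
    (hι : ∀ τ, ι (ρ τ x) = (ρ τ x)⁻¹) (hx : x * x ≠ 1) :
    ∃ y, (∀ τ, ρ τ y = y) ∧ ι y ≠ y := by
  classical
  by_contra hcon
  push Not at hcon
  have h1 : ∀ c : L, ∑ τ : L ≃ₐ[k] L, algebraMap L Ω (τ c) * (ρ τ x - (ρ τ x)⁻¹) = 0 := by
    intro c
    have h2 := hcon (∑ τ, ρ τ (algebraMap L Ω c * x)) (by
      intro g
      rw [map_sum]
      simp only [← AlgEquiv.mul_apply, ← map_mul]
      exact Equiv.sum_comp (Equiv.mulLeft g) (fun τ => ρ τ (algebraMap L Ω c * x)))
    simp only [map_sum, map_mul, h.semilinear, hι] at h2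
    have h3 : ∀ c : L, ι (algebraMap L Ω c) = algebraMap L Ω c := fun c => ι.commutes c
    simp only [h3] at h2
    simp only [mul_sub, sum_sub_distrib]
    rw [← h2, sub_self]
  have hli := linearIndependent_monoidHom L Ω
  let χ : (L ≃ₐ[k] L) → (L →* Ω) := fun τ =>
    ((algebraMap L Ω : L →* Ω)).comp (τ : L →* L)
  have hχ : Function.Injective χ := by
    intro g g' hgg
    ext c
    have := DFunLike.congr_fun hgg c
    exact (algebraMap L Ω).injective this
  have hli2 := hli.comp χ hχ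
  rw [Fintype.linearIndependent_iff] at hli2
  have h4 := hli2 (fun τ => ρ τ x - (ρ τ x)⁻¹) (by
    funext c
    have := h1 c
    simp only [Function.comp, Finset.sum_apply, Pi.smul_apply, smul_eq_mul, Pi.zero_apply]
    rw [← this]
    refine Finset.sum_congr rfl fun τ _ => ?_
    rw [mul_comm]
    rfl) 1
  simp only [map_one, AlgEquiv.one_apply] at h4
  apply hx
  have h5 : x = x⁻¹ := sub_eq_zero.1 h4
  have h6 := h.ne_zero
  calc x * x = x * x⁻¹ := by rw [← h5]
    _ = 1 := mul_inv_cancel₀ h6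

theorem IsGenericPoint.sq_ne (h : IsGenericPoint k ρ x) (h0 : 0 < Module.finrank k L) :
    x * x ≠ 1 := by
  intro hxx
  have h1 : x = 1 ∨ x = -1 := mul_self_eq_one_iff.1 hxx
  have h2 : ∀ τ, ρ τ x ∈ (⊥ : IntermediateField L Ω) := by
    intro τ
    rcases h1 with h1 | h1
    · rw [h1, map_one]; exact one_mem _
    · rw [h1, map_neg, map_one]; exact neg_mem (one_mem _)
  have h3 : (⊥ : IntermediateField L Ω) = ⊤ := by
    rw [eq_top_iff, ← h.generates, IntermediateField.adjoin_le_iff]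
    rintro _ ⟨τ, rfl⟩
    exact h2 τ
  have h4 : Algebra.IsAlgebraic L Ω := by
    constructor
    intro y
    have : y ∈ (⊥ : IntermediateField L Ω) := by rw [h3]; trivial
    obtain ⟨c, rfl⟩ := IntermediateField.mem_bot.1 this
    exact isAlgebraic_algebraMap c
  have h5 : Algebra.trdeg L Ω = 0 := trdeg_eq_zero
  rw [h.trdeg_eq] at h5
  have h6 : Nat.totient (Module.finrank k L) = 0 := by exact_mod_cast h5
  rw [Nat.totient_eq_zero] at h6
  omega

theorem main_aux (l : ℕ) (S : Split k L l) (hq : (2 * l + 1).Prime) (hl : 2 ≤ l) (hl3 : l ≤ 3)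
    (h : IsGenericPoint k ρ x) (htot : Nat.totient (Module.finrank k L) = 4 * l) :
    ∃ ι : Ω ≃ₐ[L] Ω, (∀ τ, ι (ρ τ x) = (ρ τ x)⁻¹) ∧ (∃ y, (∀ τ, ρ τ y = y) ∧ ι y ≠ y) ∧
      ∃ t : Fin (Nat.totient (Module.finrank k L)) → Ω, AlgebraicIndependent k t ∧
        ∀ y, y ∈ IntermediateField.adjoin k (Set.range t) ↔ (∀ τ, ρ τ y = y) ∧ ι y = y := by
  have htr : ((4 * l : ℕ) : Cardinal) = Algebra.trdeg L Ω := by
    rw [h.trdeg_eq, htot]
  obtain ⟨d, hx, h2, h3, h4⟩ := exists_coreData l S hq hl h htr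
  obtain ⟨θ, hθ⟩ := d.exists_inversion
  obtain ⟨t, ht, t2, t3, tq, tθ, hy⟩ := d.core hl3 θ hθ
  rw [htot]
  have hρt : ∀ i τ, ρ τ (t i) = t i := by
    intro i τ
    apply fixed_of_gen S
    · rw [← h2]; exact t2 i
    · rw [← h3]; exact t3 i
    · rw [← h4]; exact tq i
  have hxx : ∀ a b, θ (d.xx a b) = (d.xx a b)⁻¹ := by
    intro a b
    rw [d.xx_eq, map_div₀, hθ, hθ, inv_div]
    rw [div_eq_mul_inv, div_eq_mul_inv, inv_inv, mul_comm]
  have hinv : ∀ τ, θ (ρ τ x) = (ρ τ x)⁻¹ := by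
    intro τ
    obtain ⟨m, rfl⟩ := S.gen τ
    have e1 : ∀ j : ℕ, ρ (S.τ2 ^ j) (d.xx m m) = d.xx m m ∨
        ρ (S.τ2 ^ j) (d.xx m m) = (d.xx m m)⁻¹ := by
      intro j
      induction j with
      | zero => left; simp
      | succ j ih =>
        rw [pow_succ', map_mul, AlgEquiv.mul_apply]
        rcases ih with ih | ih
        · right; rw [ih, ← h2, d.s2_xx]
        · left; rw [ih, map_inv₀, ← h2, d.s2_xx, inv_inv]
    have e2 : d.xx m m = ρ (S.τ3 ^ m * S.τq ^ m) x := by
      have i3 : ∀ (m : ℕ) (y : Ω), d.s3^[m] y = ρ (S.τ3 ^ m) y := by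
        intro m
        induction m with
        | zero => intro y; simp
        | succ m ih =>
          intro y
          rw [Function.iterate_succ_apply, ih, h3, pow_succ, map_mul, AlgEquiv.mul_apply]
      have iq : ∀ (m : ℕ) (y : Ω), d.sq^[m] y = ρ (S.τq ^ m) y := by
        intro m
        induction m with
        | zero => intro y; simp
        | succ m ih =>
          intro y
          rw [Function.iterate_succ_apply, ih, h4, pow_succ, map_mul, AlgEquiv.mul_apply]
      simp only [CoreData.xx, hx, i3, iq]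
      rw [S.c (S.τ3 ^ m), map_mul, AlgEquiv.mul_apply]
    rw [mul_assoc, map_mul, AlgEquiv.mul_apply, ← e2]
    rcases e1 m with e | e
    · rw [e, hxx]
    · rw [e, map_inv₀, hxx]
  have hpos : 0 < Module.finrank k L := by
    rw [← Nat.totient_pos, htot]; omega
  refine ⟨θ, hinv, h.exists_moved θ hinv (h.sq_ne hpos), t, ?_, ?_⟩
  · exact ht.restrictScalars (algebraMap k L).injective
  · intro y
    constructor
    · intro hyt
      constructor
      · intro τ
        induction hyt using IntermediateField.adjoin_induction with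
        | mem x hx => obtain ⟨p, rfl⟩ := hx; exact hρt p τ
        | algebraMap x => exact (ρ τ).commutes x
        | add x y _ _ hx hy => rw [map_add, hx, hy]
        | inv x _ hx => rw [map_inv₀, hx]
        | mul x y _ _ hx hy => rw [map_mul, hx, hy]
      · induction hyt using IntermediateField.adjoin_induction with
        | mem x hx => obtain ⟨p, rfl⟩ := hx; exact tθ p
        | algebraMap x =>
          rw [IsScalarTower.algebraMap_apply k L Ω]
          exact θ.commutes _
        | add x y _ _ hx hy => rw [map_add, hx, hy]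
        | inv x _ hx => rw [map_inv₀, hx]
        | mul x y _ _ hx hy => rw [map_mul, hx, hy]
    · rintro ⟨h5, h6⟩
      exact mem_adjoin_of_fixed ρ h.semilinear t hρt y (hy y h6) h5

end split

end Pool.Agent.Helper68
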