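import Pool.Agent.Helper68.Data
import Pool.Agent.Helper68.Cauchy

/-! The coprime interpolants `f_b / g_b` of the values `u a b` at the points `α a`. -/

namespace Pool.Agent.Helper68

open Polynomial

namespace CoreData

variable {l : ℕ} {L Ω : Type*} [Field L] [Field Ω] [Algebra L Ω] (d : CoreData l L Ω)

/-- the interpolation points. -/
def pt (a : ℕ) : Ω := algebraMap L Ω (d.α a)

/-- iterated application of `s3` to the coefficients. -/
noncomputable def sh (b : ℕ) (f : Polynomial Ω) : Polynomial Ω := (fun p => p.map (d.s3 : Ω →+* Ω))^[b] f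

/-- a coprime interpolant for `b = 0`. -/
structure IsPair (f g : Polynomial Ω) : Prop where
  interp : Interp l d.pt (fun a => d.u a 0) f g
  coprime : IsCoprime f g

theorem pt_inj : ∀ a < 2 * l + 1, ∀ b < 2 * l + 1, d.pt a = d.pt b → a = b := by
  intro a ha b hb h
  exact d.hα a ha b hb ((algebraMap L Ω).injective h)

theorem pt_add (a : ℕ) : d.pt (a + (2 * l + 1)) = d.pt a := by
  simp only [pt, d.αp]

theorem exists_isPair : ∃ f g : Polynomial Ω, d.IsPair f g := by
  obtain ⟨f, g, h1, h2⟩ := exists_coprime_interp l d.pt (fun a => d.u a 0) d.sq d.pt_inj d.pt_add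
    (fun a => d.u_add_q a 0) (fun a => d.u_ne a 0) d.sqα (fun a => d.sq_u a 0)
  exact ⟨f, g, h1, h2⟩

variable {d} {f g : Polynomial Ω}

theorem sh_succ (b : ℕ) (f : Polynomial Ω) : d.sh (b + 1) f = (d.sh b f).map (d.s3 : Ω →+* Ω) := by
  simp only [sh, Function.iterate_succ_apply']

theorem sh_zero (f : Polynomial Ω) : d.sh 0 f = f := rfl

theorem sh_three (f : Polynomial Ω) : d.sh 3 f = f := by
  simp only [sh, Function.iterate_succ_apply', Function.iterate_zero, id]
  ext n
  simp only [coeff_map]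
  exact d.o3 _

theorem IsPair.interp' (h : d.IsPair f g) (b : ℕ) :
    Interp l d.pt (fun a => d.u a b) (d.sh b f) (d.sh b g) := by
  induction b with
  | zero => exact h.interp
  | succ b ih =>
    rw [sh_succ, sh_succ]
    refine ⟨?_, ?_, ?_⟩
    · simpa using ih.df
    · simpa using ih.dg
    · intro a ha
      have h1 : d.pt a = d.s3 (d.pt a) := (d.s3α a).symm
      rw [h1, eval_map_equiv, eval_map_equiv, ih.ev a ha, map_mul]
      congr 1
      exact d.s3_u a b

theorem IsPair.coprime' (h : d.IsPair f g) (b : ℕ) : IsCoprime (d.sh b f) (d.sh b g) := by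
  induction b with
  | zero => exact h.coprime
  | succ b ih =>
    rw [sh_succ, sh_succ]
    exact ih.map (Polynomial.mapRingHom (d.s3 : Ω →+* Ω))

theorem IsPair.g_ne (h : d.IsPair f g) (b a : ℕ) (ha : a < 2 * l + 1) :
    (d.sh b g).eval (d.pt a) ≠ 0 := by
  intro h0
  have h1 := (h.interp' b).ev a ha
  rw [h0, mul_zero] at h1
  obtain ⟨p, q, hpq⟩ := h.coprime' b
  have := congrArg (eval (d.pt a)) hpq
  simp [h0, h1] at this

theorem IsPair.f_ne (h : d.IsPair f g) (b a : ℕ) (ha : a < 2 * l + 1) :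
    (d.sh b f).eval (d.pt a) ≠ 0 := by
  rw [(h.interp' b).ev a ha]
  exact mul_ne_zero (d.u_ne a b) (h.g_ne b a ha)

/-- automorphisms inverting the `u a b` swap numerator and denominator. -/
theorem IsPair.swap (h : d.IsPair f g) (θ : Ω ≃+* Ω) (hα : ∀ a, θ (d.pt a) = d.pt a) (b : ℕ)
    (hu : ∀ a, θ (d.u a b) = (d.u a b)⁻¹) :
    ∃ c : Ω, c ≠ 0 ∧ (d.sh b f).map (θ : Ω →+* Ω) = C c * d.sh b g ∧
      (d.sh b g).map (θ : Ω →+* Ω) = C c * d.sh b f := by
  have hI : Interp l d.pt (fun a => d.u a b) ((d.sh b g).map (θ : Ω →+* Ω))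
      ((d.sh b f).map (θ : Ω →+* Ω)) := by
    refine ⟨?_, ?_, ?_⟩
    · simpa using (h.interp' b).dg
    · simpa using (h.interp' b).df
    · intro a ha
      have h1 : d.pt a = θ (d.pt a) := (hα a).symm
      rw [h1, eval_map_equiv, eval_map_equiv, (h.interp' b).ev a ha, map_mul]
      change _ = d.u a b * (θ (d.u a b) * _)
      rw [hu, ← mul_assoc, mul_inv_cancel₀ (d.u_ne a b), one_mul]
  have hc : IsCoprime ((d.sh b g).map (θ : Ω →+* Ω)) ((d.sh b f).map (θ : Ω →+* Ω)) :=
    (h.coprime' b).symm.map (Polynomial.mapRingHom (θ : Ω →+* Ω))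
  obtain ⟨c, hc0, h1, h2⟩ := (h.interp' b).unique d.pt_inj hI (h.coprime' b) hc
  exact ⟨c, hc0, h2, h1⟩

/-- the automorphism `sq` preserves numerator and denominator up to scalars. -/
theorem IsPair.shiftq (h : d.IsPair f g) (b : ℕ) :
    ∃ c : Ω, c ≠ 0 ∧ (d.sh b f).map (d.sq : Ω →+* Ω) = C c * d.sh b f ∧
      (d.sh b g).map (d.sq : Ω →+* Ω) = C (c * d.u 1 b) * d.sh b g := by
  have hu1 : d.u 1 b ≠ 0 := d.u_ne 1 b
  have key : ∀ a, ((d.sh b f).map (d.sq : Ω →+* Ω)).eval (d.pt (a + 1)) -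
      d.u (a + 1) b * (C (d.u 1 b)⁻¹ * (d.sh b g).map (d.sq : Ω →+* Ω)).eval (d.pt (a + 1)) =
      d.sq ((d.sh b f).eval (d.pt a) - d.u a b * (d.sh b g).eval (d.pt a)) := by
    intro a
    have h1 : d.pt (a + 1) = d.sq (d.pt a) := (d.sqα a).symm
    simp only [eval_mul, eval_C, map_sub, map_mul, sq_u, h1, eval_map_equiv]
    field_simp
  have hI : Interp l d.pt (fun a => d.u a b) ((d.sh b f).map (d.sq : Ω →+* Ω))
      (C (d.u 1 b)⁻¹ * (d.sh b g).map (d.sq : Ω →+* Ω)) := by
    refine ⟨?_, ?_, ?_⟩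
    · simpa using (h.interp' b).df
    · refine (natDegree_C_mul_le _ _).trans ?_
      simpa using (h.interp' b).dg
    · intro a ha
      rcases Nat.eq_zero_or_pos a with h0 | h0
      · subst h0
        have := key (2 * l)
        rw [(h.interp' b).ev (2 * l) (by omega), sub_self, map_zero] at this
        have e1 : d.pt (2 * l + 1) = d.pt 0 := by
          have := d.pt_add 0; rwa [zero_add] at this
        have e2 : d.u (2 * l + 1) b = d.u 0 b := by
          have := d.u_add_q 0 b; rwa [zero_add] at this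
        rw [e1, e2] at this
        exact sub_eq_zero.1 this
      · obtain ⟨a', rfl⟩ : ∃ a', a = a' + 1 := ⟨a - 1, by omega⟩
        have := key a'
        rw [(h.interp' b).ev a' (by omega), sub_self, map_zero] at this
        exact sub_eq_zero.1 this
  have hc : IsCoprime ((d.sh b f).map (d.sq : Ω →+* Ω))
      (C (d.u 1 b)⁻¹ * (d.sh b g).map (d.sq : Ω →+* Ω)) := by
    have h1 : IsCoprime ((d.sh b f).map (d.sq : Ω →+* Ω)) ((d.sh b g).map (d.sq : Ω →+* Ω)) :=
      (h.coprime' b).map (Polynomial.mapRingHom (d.sq : Ω →+* Ω))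
    have hu : IsUnit (C (d.u 1 b)⁻¹ : Polynomial Ω) :=
      Polynomial.isUnit_C.2 (IsUnit.mk0 _ (inv_ne_zero hu1))
    exact (isCoprime_mul_unit_left_right hu _ _).2 h1
  obtain ⟨c, hc0, h1, h2⟩ := (h.interp' b).unique d.pt_inj hI (h.coprime' b) hc
  refine ⟨c, hc0, h1, ?_⟩
  have h3 : C (d.u 1 b) * (C (d.u 1 b)⁻¹ * (d.sh b g).map (d.sq : Ω →+* Ω)) =
      (d.sh b g).map (d.sq : Ω →+* Ω) := by
    rw [← mul_assoc, ← C_mul, mul_inv_cancel₀ hu1, C_1, one_mul]
  rw [← h3, h2, C_mul]
  ring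

/-- some minor of the coefficient matrix is nonzero. -/
theorem IsPair.exists_minor (h : d.IsPair f g) : ∃ i j : ℕ, i ≤ l ∧ j ≤ l ∧
    f.coeff i * g.coeff j - f.coeff j * g.coeff i ≠ 0 := by
  by_contra hcon
  push Not at hcon
  have hall : ∀ i j, f.coeff i * g.coeff j = f.coeff j * g.coeff i := by
    intro i j
    by_cases hi : i ≤ l
    · by_cases hj : j ≤ l
      · exact sub_eq_zero.1 (hcon i j hi hj)
      · rw [coeff_eq_zero_of_natDegree_lt (lt_of_le_of_lt h.interp.dg (by omega)),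
          coeff_eq_zero_of_natDegree_lt (lt_of_le_of_lt h.interp.df (by omega : l < j))]
        ring
    · rw [coeff_eq_zero_of_natDegree_lt (lt_of_le_of_lt h.interp.df (by omega)),
          coeff_eq_zero_of_natDegree_lt (lt_of_le_of_lt h.interp.dg (by omega : l < i))]
      ring
  have hg0 : g ≠ 0 := by
    rintro rfl
    exact h.g_ne 0 0 (by omega) (by simp [sh_zero])
  obtain ⟨j, hj⟩ : ∃ j, g.coeff j ≠ 0 := by
    by_contra hc
    push Not at hc
    exact hg0 (by ext n; simp [hc n])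
  have hf : f = C (f.coeff j / g.coeff j) * g := by
    ext n
    rw [coeff_C_mul, div_mul_eq_mul_div, eq_div_iff hj]
    exact hall n j
  have hu : ∀ a < 2 * l + 1, d.u a 0 = f.coeff j / g.coeff j := by
    intro a ha
    have h1 := h.interp.ev a ha
    rw [hf, eval_mul, eval_C] at h1
    have h2 : g.eval (d.pt a) ≠ 0 := h.g_ne 0 a ha
    have h3 := mul_right_cancel₀ h2 h1
    rw [← h3]
  have h0 := hu 0 (by omega)
  have hl := d.hl
  have h1 := hu 1 (by omega)
  rw [← h0, u_zero, u_one] at h1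
  exact d.x_ne_one h1

end CoreData

end Pool.Agent.Helper68
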