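import Pool.Agent.Helper68.Coord

/-! Effect of the automorphisms on the echelon entries and on the relation tensor. -/

namespace Pool.Agent.Helper68

open Polynomial Finset

namespace CoreData

variable {l : ℕ} {L Ω : Type*} [Field L] [Field Ω] [Algebra L Ω] {d : CoreData l L Ω}
  {f g : Polynomial Ω} {i j : ℕ}

theorem coeff_of_map {θ : Ω ≃+* Ω} {p r : Polynomial Ω} {c : Ω}
    (h : p.map (θ : Ω →+* Ω) = C c * r) (n : ℕ) : θ (p.coeff n) = c * r.coeff n := by
  have := congrArg (fun q => q.coeff n) h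
  simpa using this

/-- an automorphism swapping numerators and denominators up to scalars. -/
theorem swap_effect (hD : f.coeff i * g.coeff j - f.coeff j * g.coeff i ≠ 0) (θ : Ω ≃+* Ω)
    (c : Fin 3 → Ω) (hc : ∀ b, c b ≠ 0)
    (h1 : ∀ b : Fin 3, (d.sh b f).map (θ : Ω →+* Ω) = C (c b) * d.sh b g)
    (h2 : ∀ b : Fin 3, (d.sh b g).map (θ : Ω →+* Ω) = C (c b) * d.sh b f) :
    (∀ b m, θ (d.cc f i j b m) = c b * d.cc g i j b m) ∧
    (∀ b m, θ (d.cc g i j b m) = c b * d.cc f i j b m) ∧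
    (∀ b m h, θ (d.PP f g i j b m h) = d.PP f g i j b m h) ∧
    (∀ k, θ (d.zz f g i j k) = -(c 0 * c 1 * c 2) * d.zz f g i j k) := by
  have e1 : ∀ b m, θ (d.cc f i j b m) = c b * d.cc g i j b m := fun b m =>
    coeff_of_map (h1 b) _
  have e2 : ∀ b m, θ (d.cc g i j b m) = c b * d.cc f i j b m := fun b m =>
    coeff_of_map (h2 b) _
  have e3 : ∀ (b : Fin 3) n, θ ((d.sh b f).coeff n) = c b * (d.sh b g).coeff n := fun b n =>
    coeff_of_map (h1 b) _
  have e4 : ∀ (b : Fin 3) n, θ ((d.sh b g).coeff n) = c b * (d.sh b f).coeff n := fun b n =>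
    coeff_of_map (h2 b) _
  have e5 : ∀ b, θ (minor (d.cc f i j) (d.cc g i j) b) =
      -(c b ^ 2) * minor (d.cc f i j) (d.cc g i j) b := by
    intro b
    simp only [minor, map_sub, map_mul, e1, e2]
    ring
  refine ⟨e1, e2, ?_, ?_⟩
  · intro b m h
    have hm := minor_ne (d := d) hD b
    have hcb := hc b
    have hm2 : θ (minor (d.cc f i j) (d.cc g i j) b) ≠ 0 := (map_ne_zero θ).2 hm
    fin_cases m
    · change θ (d.PP f g i j b 0 h) = d.PP f g i j b 0 h
      rw [PP_zero, map_div₀, div_eq_div_iff hm2 hm, e5]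
      simp only [map_sub, map_mul, e1, e2, e3, e4]
      ring
    · change θ (d.PP f g i j b 1 h) = d.PP f g i j b 1 h
      rw [PP_one, map_div₀, div_eq_div_iff hm2 hm, e5]
      simp only [map_sub, map_mul, e1, e2, e3, e4]
      ring
  · rintro ⟨m, _ | b⟩
    · simp only [zz, ten, map_sub, map_mul, e1, e2]; ring
    · simp only [zz, ten, map_sub, map_mul, e1, e2]; ring

/-- an automorphism preserving numerators and denominators up to scalars. -/
theorem scale_effect (hD : f.coeff i * g.coeff j - f.coeff j * g.coeff i ≠ 0) (θ : Ω ≃+* Ω)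
    (c v : Fin 3 → Ω) (hv : v 0 * v 1 * v 2 = 1)
    (h1 : ∀ b : Fin 3, (d.sh b f).map (θ : Ω →+* Ω) = C (c b) * d.sh b f)
    (h2 : ∀ b : Fin 3, (d.sh b g).map (θ : Ω →+* Ω) = C (c b * v b) * d.sh b g) :
    (∀ b m h, θ (d.PP f g i j b m h) = d.PP f g i j b m h) ∧
    (∀ k, θ (d.zz f g i j k) = (c 0 * c 1 * c 2) * d.zz f g i j k) := by
  have e1 : ∀ b m, θ (d.cc f i j b m) = c b * d.cc f i j b m := fun b m =>
    coeff_of_map (h1 b) _
  have e2 : ∀ b m, θ (d.cc g i j b m) = c b * v b * d.cc g i j b m := fun b m =>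
    coeff_of_map (h2 b) _
  have e3 : ∀ (b : Fin 3) n, θ ((d.sh b f).coeff n) = c b * (d.sh b f).coeff n := fun b n =>
    coeff_of_map (h1 b) _
  have e4 : ∀ (b : Fin 3) n, θ ((d.sh b g).coeff n) = c b * v b * (d.sh b g).coeff n :=
    fun b n => coeff_of_map (h2 b) _
  have e5 : ∀ b, θ (minor (d.cc f i j) (d.cc g i j) b) =
      (c b ^ 2 * v b) * minor (d.cc f i j) (d.cc g i j) b := by
    intro b
    simp only [minor, map_sub, map_mul, e1, e2]
    ring
  refine ⟨?_, ?_⟩
  · intro b m h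
    have hm := minor_ne (d := d) hD b
    have hm2 : θ (minor (d.cc f i j) (d.cc g i j) b) ≠ 0 := (map_ne_zero θ).2 hm
    fin_cases m
    · change θ (d.PP f g i j b 0 h) = d.PP f g i j b 0 h
      rw [PP_zero, map_div₀, div_eq_div_iff hm2 hm, e5]
      simp only [map_sub, map_mul, e1, e2, e3, e4]
      ring
    · change θ (d.PP f g i j b 1 h) = d.PP f g i j b 1 h
      rw [PP_one, map_div₀, div_eq_div_iff hm2 hm, e5]
      simp only [map_sub, map_mul, e1, e2, e3, e4]
      ring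
  · rintro ⟨m, _ | b⟩
    · simp only [zz, ten, map_sub, map_mul, e1, e2]
      linear_combination (-(c 0 * c 1 * c 2) * (d.cc g i j 0 m * d.cc g i j 1 m *
        d.cc g i j 2 m)) * hv
    · simp only [zz, ten, map_sub, map_mul, e1, e2]
      linear_combination (-(c 0 * c 1 * c 2) * (d.cc g i j 0 (if b = 0 then 1 - m else m) *
        d.cc g i j 1 (if b = 1 then 1 - m else m) * d.cc g i j 2 (if b = 2 then 1 - m else m))) * hv

theorem sh_map_s3 (b : Fin 3) (p : Polynomial Ω) :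
    (d.sh b p).map (d.s3 : Ω →+* Ω) = d.sh ((b + 1 : Fin 3) : ℕ) p := by
  fin_cases b
  · exact (sh_succ 0 p).symm
  · exact (sh_succ 1 p).symm
  · change (d.sh 2 p).map (d.s3 : Ω →+* Ω) = d.sh 0 p
    rw [← sh_succ 2 p, sh_zero]
    exact sh_three p

/-- effect of `s3`. -/
theorem s3_effect :
    (∀ b m h, d.s3 (d.PP f g i j b m h) = d.PP f g i j (b + 1) m h) ∧
    (∀ m, d.s3 (d.zz f g i j (m, none)) = d.zz f g i j (m, none)) ∧
    (∀ m b, d.s3 (d.zz f g i j (m, some b)) = d.zz f g i j (m, some (b + 1))) := by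
  have e0 : ∀ (p : Polynomial Ω) (b : Fin 3) n, d.s3 ((d.sh b p).coeff n) =
      (d.sh ((b + 1 : Fin 3) : ℕ) p).coeff n := by
    intro p b n
    have := congrArg (fun q => q.coeff n) (sh_map_s3 (d := d) b p)
    simpa using this
  have e1 : ∀ (p : Polynomial Ω) b m, d.s3 (d.cc p i j b m) = d.cc p i j (b + 1) m :=
    fun p b m => e0 p b _
  refine ⟨?_, ?_, ?_⟩
  · intro b m h
    fin_cases m
    · change d.s3 (d.PP f g i j b 0 h) = d.PP f g i j (b + 1) 0 h
      rw [PP_zero, PP_zero]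
      simp only [map_div₀, map_sub, map_mul, minor, e0, e1]
    · change d.s3 (d.PP f g i j b 1 h) = d.PP f g i j (b + 1) 1 h
      rw [PP_one, PP_one]
      simp only [map_div₀, map_sub, map_mul, minor, e0, e1]
  · intro m
    simp only [zz, ten, map_sub, map_mul, e1]
    have h0 : (0 : Fin 3) + 1 = 1 := rfl
    have h1 : (1 : Fin 3) + 1 = 2 := rfl
    have h2 : (2 : Fin 3) + 1 = 0 := rfl
    rw [h0, h1, h2]; ring
  · intro m b
    simp only [zz, ten, map_sub, map_mul, e1]
    have h0 : (0 : Fin 3) + 1 = 1 := rfl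
    have h1 : (1 : Fin 3) + 1 = 2 := rfl
    have h2 : (2 : Fin 3) + 1 = 0 := rfl
    rw [h0, h1, h2]
    fin_cases b <;> simp <;> ring

end CoreData

end Pool.Agent.Helper68
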